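import Pool.Agent.L7h38.UC.Stm

/-!
# Project UC: rules for the expectation over lists, and for Lipschitz functions
-/

set_option autoImplicit false

namespace Pool.Agent.L7h38.UC

open Finset Filter Topology

variable {d : ℕ} {μ : Equiv.Perm (Fin d) → ℝ}

theorem EW_app (M N : ℕ) (g : List (Equiv.Perm (Fin d)) → ℝ) :
    EW μ (M + N) g = EW μ M (fun v => EW μ N (fun w => g (v ++ w))) := by
  induction M generalizing g with
  | zero =>
    rw [Nat.zero_add]
    rfl
  | succ M ih =>
    rw [Nat.succ_add]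
    change ∑ σ, μ σ * EW μ (M + N) (fun w => g (σ :: w)) = ∑ σ, μ σ * EW μ M _
    refine Finset.sum_congr rfl fun σ _ => ?_
    rw [ih]
    rfl

theorem EW_mono (h0 : ∀ σ, 0 ≤ μ σ) (N : ℕ) (g h : List (Equiv.Perm (Fin d)) → ℝ)
    (hgh : ∀ w, w.length = N → g w ≤ h w) : EW μ N g ≤ EW μ N h := by
  induction N generalizing g h with
  | zero => exact hgh [] rfl
  | succ N ih =>
    refine Finset.sum_le_sum fun σ _ => mul_le_mul_of_nonneg_left ?_ (h0 σ)
    exact ih _ _ fun w hw => hgh (σ :: w) (by simp [hw])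

theorem EW_lin (N : ℕ) (g h : List (Equiv.Perm (Fin d)) → ℝ) (x y : ℝ) :
    EW μ N (fun w => x * g w + y * h w) = x * EW μ N g + y * EW μ N h := by
  induction N generalizing g h with
  | zero => rfl
  | succ N ih =>
    change ∑ σ, μ σ * EW μ N (fun w => x * g (σ :: w) + y * h (σ :: w)) =
      x * ∑ σ, μ σ * EW μ N (fun w => g (σ :: w)) + y * ∑ σ, μ σ * EW μ N (fun w => h (σ :: w))
    rw [Finset.mul_sum, Finset.mul_sum, ← Finset.sum_add_distrib]
    refine Finset.sum_congr rfl fun σ _ => ?_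
    rw [ih]
    ring

theorem EW_const (hμ : Pr μ) (N : ℕ) (x : ℝ) : EW μ N (fun _ => x) = x := by
  induction N with
  | zero => rfl
  | succ N ih =>
    change ∑ σ, μ σ * EW μ N (fun _ => x) = x
    rw [ih, ← Finset.sum_mul, hμ.2, one_mul]

theorem EW_add (N : ℕ) (g h : List (Equiv.Perm (Fin d)) → ℝ) :
    EW μ N (fun w => g w + h w) = EW μ N g + EW μ N h := by
  have := EW_lin (μ := μ) N g h 1 1
  simpa using this

theorem EW_sub (N : ℕ) (g h : List (Equiv.Perm (Fin d)) → ℝ) :
    EW μ N (fun w => g w - h w) = EW μ N g - EW μ N h := by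
  have := EW_lin (μ := μ) N g h 1 (-1)
  simpa [sub_eq_add_neg] using this

theorem EW_smul (N : ℕ) (g : List (Equiv.Perm (Fin d)) → ℝ) (x : ℝ) :
    EW μ N (fun w => x * g w) = x * EW μ N g := by
  have := EW_lin (μ := μ) N g g x 0
  simpa using this

theorem EW_abs (h0 : ∀ σ, 0 ≤ μ σ) (N : ℕ) (g : List (Equiv.Perm (Fin d)) → ℝ) :
    |EW μ N g| ≤ EW μ N (fun w => |g w|) := by
  rw [abs_le]
  constructor
  · have h := EW_mono h0 N (fun w => -1 * |g w|) g fun w _ => by
      have := neg_abs_le (g w)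
      linarith
    rw [EW_smul] at h
    linarith
  · exact EW_mono h0 N _ _ fun w _ => le_abs_self _

theorem EW_congr (N : ℕ) (g h : List (Equiv.Perm (Fin d)) → ℝ)
    (hgh : ∀ w, w.length = N → g w = h w) : EW μ N g = EW μ N h := by
  induction N generalizing g h with
  | zero => exact hgh [] rfl
  | succ N ih =>
    refine Finset.sum_congr rfl fun σ _ => ?_
    rw [ih _ _ fun w hw => hgh (σ :: w) (by simp [hw])]

theorem EW_sum {ι : Type} (s : Finset ι) (N : ℕ) (g : ι → List (Equiv.Perm (Fin d)) → ℝ) :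
    EW μ N (fun w => ∑ i ∈ s, g i w) = ∑ i ∈ s, EW μ N (g i) := by
  classical
  induction s using Finset.induction_on with
  | empty =>
    simp only [Finset.sum_empty]
    have := EW_smul (μ := μ) N (fun _ => (0 : ℝ)) 0
    simpa using this
  | insert i s hi ih =>
    simp only [Finset.sum_insert hi]
    rw [EW_add, ih]

/-! ### `q` and `QW` -/

theorem q_smul (l x : ℝ) (σ : Equiv.Perm (Fin d)) (ℓ : Fin d → Fin d → ℝ) (i i' : Fin d) :
    q l σ (fun a b => x * ℓ a b) i i' = x * q l σ ℓ i i' := by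
  unfold q
  split_ifs
  · rw [mul_zero]
  · ring

theorem QW_smul (l x : ℝ) (w : List (Equiv.Perm (Fin d))) (ℓ : Fin d → Fin d → ℝ) :
    QW l w (fun a b => x * ℓ a b) = fun i i' => x * QW l w ℓ i i' := by
  induction w with
  | nil => rfl
  | cons σ w ih =>
    funext i i'
    change q l σ (QW l w fun a b => x * ℓ a b) i i' = x * q l σ (QW l w ℓ) i i'
    rw [ih, q_smul]

theorem QW_nonneg {l : ℝ} (h0 : 0 ≤ l) (h1 : l ≤ 1) (w : List (Equiv.Perm (Fin d)))
    (ℓ : Fin d → Fin d → ℝ) (hℓ : ∀ i i', 0 ≤ ℓ i i') : ∀ i i', 0 ≤ QW l w ℓ i i' := by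
  induction w with
  | nil => exact hℓ
  | cons σ w ih =>
    intro i i'
    change 0 ≤ q l σ (QW l w ℓ) i i'
    unfold q
    split_ifs
    · exact le_rfl
    · have := ih i i'
      have := ih (σ i) i'
      have := ih i (σ i')
      have := ih (σ i) (σ i')
      have : 0 ≤ 1 - l := by linarith
      positivity

theorem Lip_PW (hC : S_CON) {n k : ℕ} (hn : 1 ≤ n) (hk : k ≤ n) (w : List (Equiv.Perm (Fin d)))
    (F : Mt d → ℝ) (ℓ : Fin d → Fin d → ℝ) (hℓ : ∀ i i', 0 ≤ ℓ i i') (hF : Lip n F ℓ) :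
    Lip n (PW n k w F) (QW (k / n) w ℓ) := by
  induction w with
  | nil => exact hF
  | cons σ w ih =>
    have hn' : (0 : ℝ) < n := by exact_mod_cast hn
    have h1 : (k : ℝ) / n ≤ 1 := by
      rw [div_le_one hn']
      exact_mod_cast hk
    exact hC d n k hn hk σ _ _ (QW_nonneg (by positivity) h1 w ℓ hℓ) ih

theorem off_nonneg (i i' : Fin d) : 0 ≤ off i i' := by
  unfold off
  split_ifs <;> norm_num

theorem shift_same (A : Mt d) (a b i : Fin d) : shift A a b i i = A := by
  funext x j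
  simp [shift]

end Pool.Agent.L7h38.UC
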