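import Pool.Agent.L7h38.UC.Ups
import Pool.Agent.L7h96.UC.Inv
import Pool.Agent.L7h96.UC.Swp
import Pool.Agent.L7h96.UC.Pwb
import Pool.Agent.L7h96.UC.Tra
import Pool.Agent.L7h96.UC.Finb
import Pool.Agent.L7h96.UC.Finc
import Pool.Agent.L7h70.UC.Res
import Pool.Agent.L7h70.UC.Hyp
import Pool.Agent.L7h70.UC.Contr
import Pool.Agent.L7h50.UC.Mom
import Pool.Agent.L7h50.UC.Smo
import Pool.Agent.L7h50.UC.Qn
import Pool.Agent.L7h76.UC.Exc
import Pool.Agent.L7h76.UC.Rch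
import Pool.Agent.L7h76.UC.Cex
import Pool.Agent.L7h76.UC.Fina
import Pool.Agent.L7h42.UC.Dis
import Pool.Agent.L7h42.UC.Upo
import Pool.Agent.L7h87.UC.Fwb
import Pool.Agent.L7h87.UC.Sqf
import Pool.Agent.L7h87.UC.Rep
import Pool.Agent.L7h87.UC.Pnr
import Pool.Agent.L7h87.UC.Bri
import Pool.Agent.L7h15.UC.Lya
import Pool.Agent.L7h78.UC.Low
import Pool.Agent.L7h78.UC.Typ
import Pool.Agent.L7h56.UC.Ptl
import Pool.Agent.L7h56.UC.Exs
import Pool.Agent.L7h24.UC.Ctu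
import Pool.Agent.L7h24.UC.Itr
import Pool.Agent.L7h40.UC.BIN
import Pool.Agent.L7h40.UC.LCL

/-!
# Project UC: all parts, without hypotheses
-/

set_option autoImplicit false

namespace Pool.Agent.L7h38.UC.All

open Pool.Agent.L7h38.UC

theorem RES : S_RES := Pool.Agent.L7h70.UC.s_RES
theorem HYP : S_HYP := Pool.Agent.L7h70.UC.s_HYP
theorem INV : S_INV := Pool.Agent.L7h96.UC.s_INV
theorem NXC : S_NXC := Pool.Agent.L7h96.UC.s_NXC
theorem SWP : S_SWP := Pool.Agent.L7h96.UC.s_SWP INV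
theorem PWB : S_PWB := Pool.Agent.L7h96.UC.s_PWB INV NXC
theorem CON : S_CON := Pool.Agent.L7h70.UC.s_CON RES HYP INV NXC SWP
theorem QN : S_QN := Pool.Agent.L7h50.UC.s_QN
theorem RCH : S_RCH := Pool.Agent.L7h76.UC.s_RCH
theorem DIS : S_DIS := Pool.Agent.L7h42.UC.s_DIS
theorem MOM : S_MOM := Pool.Agent.L7h50.UC.s_MOM RES HYP INV NXC
theorem EXC : S_EXC := Pool.Agent.L7h76.UC.s_EXC HYP
theorem TRA : S_TRA := Pool.Agent.L7h96.UC.s_TRA RES EXC SWP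
theorem SMO : S_SMO := Pool.Agent.L7h50.UC.s_SMO TRA MOM PWB INV NXC
theorem FWB : S_FWB := Pool.Agent.L7h87.UC.s_FWB
theorem SQF : S_SQF := Pool.Agent.L7h87.UC.s_SQF
theorem LYA : S_LYA := Pool.Agent.L7h15.UC.s_LYA FWB SQF
theorem UPO : S_UPO := Pool.Agent.L7h42.UC.s_UPO CON QN DIS
theorem PNR : S_PNR := Pool.Agent.L7h87.UC.s_PNR PWB
theorem UPS : S_UPS := s_UPS CON QN RCH DIS MOM PWB SMO FWB PNR
theorem LOW : S_LOW := Pool.Agent.L7h78.UC.s_LOW MOM PWB FWB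
theorem TYP : S_TYP := Pool.Agent.L7h78.UC.s_TYP MOM PWB FWB SQF
theorem REP : S_REP := Pool.Agent.L7h87.UC.s_REP
theorem BRI : S_BRI := Pool.Agent.L7h87.UC.s_BRI INV NXC
theorem CTU : S_CTU := Pool.Agent.L7h24.UC.s_CTU REP BRI PNR
theorem CTL : S_CTL := Pool.Agent.L7h24.UC.s_CTL REP BRI PNR
theorem PTL : S_PTL := Pool.Agent.L7h56.UC.s_PTL
theorem ITR : S_ITR := Pool.Agent.L7h24.UC.s_ITR PNR
theorem LCL : S_LCL := Pool.Agent.L7h40.UC.s_LCL RES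
theorem CEX : S_CEX := Pool.Agent.L7h76.UC.s_CEX LCL MOM INV PWB
theorem EXS : S_EXS := Pool.Agent.L7h56.UC.s_EXS
theorem FINA : S_FINA := Pool.Agent.L7h76.UC.s_FINA UPS LOW TYP LYA FWB CTU CTL PTL
theorem FINB : S_FINB := Pool.Agent.L7h96.UC.s_FINB UPO LOW TYP CTU CTL PTL
theorem FINC : S_FINC := Pool.Agent.L7h96.UC.s_FINC CEX ITR CTU PNR REP BRI

/-- the assertion of Q2 is false -/
theorem not_Q2 : ¬ Q2 := by
  intro h
  have h0 : ∀ n : ℕ, ∃ π : St 2 n → ℝ, Stationary mu2 (n / 2) π := fun n => by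
    refine EXS 2 n (n / 2) mu2 ⟨fun σ => ?_, ?_⟩ (Nat.div_le_self n 2)
    · unfold mu2
      split_ifs <;> norm_num
    · unfold mu2
      simp
  choose π hπ using h0
  have hPr : Pr mu2 := ⟨fun σ => by
    unfold mu2
    split_ifs <;> norm_num, by
    unfold mu2
    simp⟩
  have hIrr : Irr mu2 := by
    intro i j
    by_cases hij : i = j
    · rw [hij]
    · refine Relation.ReflTransGen.single ⟨Equiv.swap 0 1, by simp [mu2], ?_⟩
      fin_cases i <;> fin_cases j <;> simp_all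
  refine (FINC π hπ).2 (h 2 mu2 le_rfl hPr hIrr (1 / 4) (by norm_num) (by norm_num) (fun n => n / 2)
    ?_ π hπ).1
  filter_upwards [Filter.eventually_ge_atTop 2] with n hn
  have h1 : (n : ℝ) / 2 - 1 / 2 ≤ ((n / 2 : ℕ) : ℝ) := by
    have h2 : n ≤ 2 * (n / 2) + 1 := by omega
    have h3 : (n : ℝ) ≤ 2 * ((n / 2 : ℕ) : ℝ) + 1 := by exact_mod_cast h2
    linarith
  have h4 : ((n / 2 : ℕ) : ℝ) ≤ (n : ℝ) / 2 := Nat.cast_div_le
  have h5 : (2 : ℝ) ≤ n := by exact_mod_cast hn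
  constructor <;> linarith

end Pool.Agent.L7h38.UC.All
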