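import Mathlib

/-!
# The balanced multi-urn chain moving `k` balls per urn: definitions of the statement
-/

set_option autoImplicit false

namespace Pool.Agent.L7h38.UC

open Finset

/-- A state: `A i j` is the number of balls of colour `j` in urn `i`; every urn contains `n` balls and
there are `n` balls of each colour. -/
def St (d n : ℕ) : Type :=
  {A : Fin d → Fin d → Fin (n + 1) //
    (∀ i, ∑ j, (A i j : ℕ) = n) ∧ ∀ j, ∑ i, (A i j : ℕ) = n}

instance (d n : ℕ) : Fintype (St d n) := by
  unfold St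
  infer_instance

instance (d n : ℕ) : DecidableEq (St d n) := by
  unfold St
  infer_instance

/-- The balls in urn `i` in the state `A`: pairs of a colour `j` and a number less than `A i j`. -/
abbrev Balls {d n : ℕ} (A : St d n) (i : Fin d) : Type := Σ j : Fin d, Fin (A.1 i j : ℕ)

/-- The choices: for each urn a set of `k` of its balls. -/
def choices {d n : ℕ} (k : ℕ) (A : St d n) : Finset (∀ i : Fin d, Finset (Balls A i)) :=
  Fintype.piFinset fun _ => Finset.powersetCard k Finset.univ

/-- The number of balls of colour `j` in a set of balls of urn `i`. -/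
def number {d n : ℕ} {A : St d n} {i : Fin d} (S : Finset (Balls A i)) (j : Fin d) : ℕ :=
  #{x ∈ S | x.1 = j}

/-- The transition probability of one ring: `σ` is sampled from `μ`, for each urn a uniformly random
set of `k` of its balls is chosen, independently, and the balls chosen from urn `i` are moved to urn
`σ i`, for all `i` simultaneously. -/
noncomputable def ring {d n : ℕ} (μ : Equiv.Perm (Fin d) → ℝ) (k : ℕ) (A B : St d n) : ℝ :=
  ∑ σ, μ σ * (#{S ∈ choices k A | ∀ i j,
    (B.1 i j : ℕ) = (A.1 i j : ℕ) - number (S i) j + number (S (σ⁻¹ i)) j} : ℝ) / #(choices k A)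

/-- The law of the chain (rings at rate `1`) at time `t`, started at `A`. -/
noncomputable def law {d n : ℕ} (μ : Equiv.Perm (Fin d) → ℝ) (k : ℕ) (t : ℝ) (A B : St d n) : ℝ :=
  ∑' N : ℕ, Real.exp (-t) * t ^ N / (N.factorial : ℝ) * (Matrix.of (ring μ k) ^ N) A B

/-- `π` is a stationary distribution. -/
def Stationary {d n : ℕ} (μ : Equiv.Perm (Fin d) → ℝ) (k : ℕ) (π : St d n → ℝ) : Prop :=
  (∀ A, 0 ≤ π A) ∧ ∑ A, π A = 1 ∧ ∀ B, ∑ A, π A * ring μ k A B = π B

/-- The maximal distance in total variation to `π` at time `t`. -/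
noncomputable def dn {d n : ℕ} (μ : Equiv.Perm (Fin d) → ℝ) (k : ℕ) (π : St d n → ℝ) (t : ℝ) : ℝ :=
  ⨆ A : St d n, (1 / 2) * ∑ B, |law μ k t A B - π B|

/-- The mixing time. -/
noncomputable def tmix {d n : ℕ} (μ : Equiv.Perm (Fin d) → ℝ) (k : ℕ) (π : St d n → ℝ) (ε : ℝ) : ℝ :=
  sInf {t : ℝ | 0 ≤ t ∧ dn μ k π t ≤ ε}

/-- `μ` is a probability distribution. -/
def Pr {d : ℕ} (μ : Equiv.Perm (Fin d) → ℝ) : Prop := (∀ σ, 0 ≤ μ σ) ∧ ∑ σ, μ σ = 1

/-- `U` is irreducible: from every urn one can reach every urn by permutations of positive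
probability. -/
def Irr {d : ℕ} (μ : Equiv.Perm (Fin d) → ℝ) : Prop :=
  ∀ i j, Relation.ReflTransGen (fun x y => ∃ σ, 0 < μ σ ∧ σ x = y) i j

/-- The mean effect of a ring with permutation `σ`: the matrix `(1 - l) I + l P_σ`, acting on the rows
of `B`. -/
def ms {d : ℕ} (l : ℝ) (σ : Equiv.Perm (Fin d)) (B : Fin d → Fin d → ℝ) : Fin d → Fin d → ℝ :=
  fun i j => (1 - l) * B i j + l * B (σ⁻¹ i) j

/-- the product of these matrices for the list `w` of permutations (the head is applied first) -/
def mw {d : ℕ} (l : ℝ) : List (Equiv.Perm (Fin d)) → (Fin d → Fin d → ℝ) → Fin d → Fin d → ℝ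
  | [], B => B
  | σ :: w, B => mw l w (ms l σ B)

/-- the square of the Frobenius norm -/
def nf2 {d : ℕ} (B : Fin d → Fin d → ℝ) : ℝ := ∑ i, ∑ j, B i j ^ 2

/-- the projection `I - J / d` onto the vectors with sum zero -/
noncomputable def Pi0 (d : ℕ) : Fin d → Fin d → ℝ := fun i j => (if i = j then 1 else 0) - 1 / d

/-- the Frobenius norm of the product of the matrices of `w`, restricted to the vectors with sum
zero -/
noncomputable def fw {d : ℕ} (l : ℝ) (w : List (Equiv.Perm (Fin d))) : ℝ :=
  Real.sqrt (nf2 (mw l w (Pi0 d)))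

/-- the expectation over lists of `N` independent permutations with law `μ` -/
def EW {d : ℕ} (μ : Equiv.Perm (Fin d) → ℝ) : ℕ → (List (Equiv.Perm (Fin d)) → ℝ) → ℝ
  | 0, g => g []
  | N + 1, g => ∑ σ, μ σ * EW μ N (fun w => g (σ :: w))

end Pool.Agent.L7h38.UC
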