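import Pool.Agent.L7h38.UC.Ew

/-!
# Project UC, part UPS: the deterministic estimate for three lists of rings
-/

set_option autoImplicit false

namespace Pool.Agent.L7h38.UC

open Finset Filter Topology

variable {d : ℕ}

/-- Frobenius distance to the constant matrix `n / d` -/
noncomputable def rr (n : ℕ) (A : Mt d) : ℝ := Real.sqrt (nf2 (fun x y => rl A x y - n / d))

theorem rr_nonneg (n : ℕ) (A : Mt d) : 0 ≤ rr n A := Real.sqrt_nonneg _

theorem nf2_nonneg (B : Fin d → Fin d → ℝ) : 0 ≤ nf2 B :=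
  Finset.sum_nonneg fun _ _ => Finset.sum_nonneg fun _ _ => sq_nonneg _

theorem rr_sq (n : ℕ) (A : Mt d) : rr n A ^ 2 = nf2 (fun x y => rl A x y - n / d) :=
  Real.sq_sqrt (nf2_nonneg _)

/-- the norm of a matrix, in `EuclideanSpace` -/
theorem sqrt_nf2_sub_le (B B' : Fin d → Fin d → ℝ) :
    |Real.sqrt (nf2 B) - Real.sqrt (nf2 B')| ≤ Real.sqrt (nf2 fun x y => B x y - B' x y) := by
  have key : ∀ C : Fin d → Fin d → ℝ, Real.sqrt (nf2 C) =
      ‖(WithLp.toLp 2 (fun p : Fin d × Fin d => C p.1 p.2) : EuclideanSpace ℝ (Fin d × Fin d))‖ := by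
    intro C
    rw [EuclideanSpace.norm_eq]
    congr 1
    simp only [nf2, Real.norm_eq_abs, sq_abs]
    rw [Fintype.sum_prod_type]
  rw [key B, key B', key]
  exact abs_norm_sub_norm_le _ _

theorem nf2_shift (A : Mt d) (a b i i' : Fin d) :
    nf2 (fun x y => rl (shift A a b i i') x y - rl A x y) ≤ 4 := by
  by_cases hi : i = i'
  · subst hi
    rw [shift_same]
    simp [nf2]
  by_cases hab : a = b
  · subst hab
    have : shift A a a i i' = A := by
      funext x j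
      simp [shift]
    rw [this]
    simp [nf2]
  have h1 : ∀ x y, (rl (shift A a b i i') x y - rl A x y) ^ 2 =
      ((if y = a then (1 : ℝ) else 0) + (if y = b then 1 else 0)) *
        ((if x = i then 1 else 0) + (if x = i' then 1 else 0)) := by
    intro x y
    simp only [rl, shift]
    by_cases h1 : y = a <;> by_cases h2 : y = b <;> by_cases h3 : x = i <;> by_cases h4 : x = i' <;>
      simp_all
  unfold nf2
  simp only [h1]
  rw [Finset.sum_comm]
  simp only [← Finset.mul_sum, Finset.sum_add_distrib, Finset.sum_ite_eq', Finset.mem_univ, if_true]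
  rw [← Finset.sum_mul]
  simp only [Finset.sum_add_distrib, Finset.sum_ite_eq', Finset.mem_univ, if_true]
  norm_num

theorem rr_shift (n : ℕ) (A : Mt d) (a b i i' : Fin d) :
    |rr n (shift A a b i i') - rr n A| ≤ 2 := by
  refine (sqrt_nf2_sub_le _ _).trans ?_
  have h1 : (fun x y => rl (shift A a b i i') x y - (n : ℝ) / d - (rl A x y - n / d)) =
      fun x y => rl (shift A a b i i') x y - rl A x y := by
    funext x y
    ring
  rw [h1]
  refine Real.sqrt_le_iff.2 ⟨by norm_num, (nf2_shift A a b i i').trans (by norm_num)⟩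

theorem sum_abs_le (B : Fin d → Fin d → ℝ) :
    ∑ i, ∑ j, |B i j| ≤ d * Real.sqrt (nf2 B) := by
  have h1 : (∑ p : Fin d × Fin d, |B p.1 p.2|) ^ 2 ≤ (d * d) * nf2 B := by
    have h2 := sq_sum_le_card_mul_sum_sq (s := (Finset.univ : Finset (Fin d × Fin d)))
      (f := fun p => |B p.1 p.2|)
    simp only [sq_abs, Finset.card_univ, Fintype.card_prod, Fintype.card_fin, Nat.cast_mul] at h2
    refine h2.trans (le_of_eq ?_)
    unfold nf2
    rw [Fintype.sum_prod_type]
  rw [← Fintype.sum_prod_type (f := fun p : Fin d × Fin d => |B p.1 p.2|)]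
  refine Real.le_sqrt_of_sq_le h1 |>.trans (le_of_eq ?_)
  rw [Real.sqrt_mul (by positivity), Real.sqrt_mul_self (by positivity)]

/-- the cut off function -/
noncomputable def chi (n : ℕ) (R : ℝ) (A : Mt d) : ℝ := max 0 (min 1 (2 - 2 * rr n A / R))

theorem chi_nonneg (n : ℕ) (R : ℝ) (A : Mt d) : 0 ≤ chi n R A := le_max_left _ _

theorem chi_le_one (n : ℕ) (R : ℝ) (A : Mt d) : chi n R A ≤ 1 :=
  max_le zero_le_one (min_le_left _ _)

theorem chi_lip (n : ℕ) {R : ℝ} (hR : 0 < R) (A B : Mt d) :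
    |chi n R A - chi n R B| ≤ 2 / R * |rr n A - rr n B| := by
  unfold chi
  have h1 := abs_max_sub_max_le_abs (min 1 (2 - 2 * rr n A / R)) (min 1 (2 - 2 * rr n B / R)) (0 : ℝ)
  rw [max_comm, max_comm (min 1 (2 - 2 * rr n B / R))] at h1
  refine h1.trans ?_
  have h2 := abs_min_sub_min_le_max (1 : ℝ) (2 - 2 * rr n A / R) 1 (2 - 2 * rr n B / R)
  refine h2.trans ?_
  rw [sub_self, abs_zero, max_eq_right (abs_nonneg _)]
  refine le_of_eq ?_
  rw [← abs_of_pos (show (0 : ℝ) < 2 / R by positivity), ← abs_mul]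
  rw [abs_sub_comm]
  congr 1
  ring

theorem chi_eq_zero (n : ℕ) {R : ℝ} (hR : 0 < R) (A : Mt d) (h : R ≤ rr n A) : chi n R A = 0 := by
  unfold chi
  refine max_eq_left ((min_le_right _ _).trans ?_)
  have : 2 ≤ 2 * rr n A / R := by
    rw [le_div_iff₀ hR]
    linarith
  linarith

theorem one_sub_chi_le (n : ℕ) {R : ℝ} (hR : 0 < R) (A : Mt d) :
    1 - chi n R A ≤ 4 / R ^ 2 * rr n A ^ 2 := by
  by_cases h : rr n A ≤ R / 2
  · have h1 : chi n R A = 1 := by
      unfold chi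
      have h2 : 2 * rr n A / R ≤ 1 := by
        rw [div_le_one hR]
        linarith
      rw [min_eq_left (by linarith), max_eq_right zero_le_one]
    rw [h1, sub_self]
    positivity
  · push Not at h
    have h1 : 1 ≤ 4 / R ^ 2 * rr n A ^ 2 := by
      have h2 : (R / 2) ^ 2 ≤ rr n A ^ 2 := by
        apply pow_le_pow_left₀ (by positivity) h.le
      rw [div_mul_eq_mul_div, le_div_iff₀ (by positivity)]
      nlinarith
    linarith [chi_nonneg n R A]

theorem sum_dist_le (n : ℕ) (A B : Mt d) :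
    ∑ i, ∑ j, |rl A i j - rl B i j| ≤ d * (rr n A + rr n B) := by
  refine (sum_abs_le fun i j => rl A i j - rl B i j).trans ?_
  refine mul_le_mul_of_nonneg_left ?_ (by positivity)
  have h1 := sqrt_nf2_sub_le (fun x y => rl A x y - (n : ℝ) / d) (fun x y => (0 : ℝ))
  have key : ∀ C : Fin d → Fin d → ℝ, Real.sqrt (nf2 C) =
      ‖(WithLp.toLp 2 (fun p : Fin d × Fin d => C p.1 p.2) : EuclideanSpace ℝ (Fin d × Fin d))‖ := by
    intro C
    rw [EuclideanSpace.norm_eq]
    congr 1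
    simp only [nf2, Real.norm_eq_abs, sq_abs]
    rw [Fintype.sum_prod_type]
  unfold rr
  rw [key, key, key]
  have h2 : (WithLp.toLp 2 (fun p : Fin d × Fin d => rl A p.1 p.2 - rl B p.1 p.2) :
      EuclideanSpace ℝ (Fin d × Fin d)) =
      WithLp.toLp 2 (fun p : Fin d × Fin d => rl A p.1 p.2 - (n : ℝ) / d) -
        WithLp.toLp 2 (fun p : Fin d × Fin d => rl B p.1 p.2 - (n : ℝ) / d) := by
    ext p
    simp
  rw [h2]
  exact norm_sub_le _ _

theorem PW_smul (hP : S_PWB) (n k : ℕ) (w : List (Equiv.Perm (Fin d))) (F : Mt d → ℝ) (x : ℝ)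
    (A : Mt d) : PW n k w (fun B => x * F B) A = x * PW n k w F A := by
  have h := hP.2.1 d n k w F F x 0 A
  simpa using h

theorem PW_sub (hP : S_PWB) (n k : ℕ) (w : List (Equiv.Perm (Fin d))) (F G : Mt d → ℝ)
    (A : Mt d) : PW n k w (fun B => F B - G B) A = PW n k w F A - PW n k w G A := by
  have h := hP.2.1 d n k w F G 1 (-1) A
  simpa [sub_eq_add_neg] using h

theorem PW_abs (hP : S_PWB) {n k : ℕ} (hk : k ≤ n) (w : List (Equiv.Perm (Fin d)))
    (F G : Mt d → ℝ) (h : ∀ A, |F A| ≤ G A) (c : Cf d n) (hc : Bal c) :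
    |PW n k w F (cn c)| ≤ PW n k w G (cn c) := by
  rw [abs_le]
  constructor
  · have h1 := hP.1 d n k hk w (fun B => (-1) * G B) F (fun c _ => by
      have := (abs_le.1 (h (cn c))).1
      linarith) c hc
    rw [PW_smul hP] at h1
    linarith
  · exact hP.1 d n k hk w F G (fun c _ => (abs_le.1 (h (cn c))).2) c hc

theorem fw_nonneg (l : ℝ) (w : List (Equiv.Perm (Fin d))) : 0 ≤ fw l w := Real.sqrt_nonneg _

theorem fw_le (hF : S_FWB) (hd : 1 ≤ d) {l : ℝ} (h0 : 0 ≤ l) (h1 : l ≤ 1)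
    (w : List (Equiv.Perm (Fin d))) : fw l w ≤ d := by
  have hd' : (1 : ℝ) ≤ d := by exact_mod_cast hd
  have h2 : nf2 (Pi0 d) ≤ (d : ℝ) ^ 2 := by
    have h3 : ∀ i j : Fin d, Pi0 d i j ^ 2 ≤ 1 := by
      intro i j
      have h4 : (0 : ℝ) < 1 / d := by positivity
      have h5 : (1 : ℝ) / d ≤ 1 := by
        rw [div_le_one (by linarith)]
        exact hd'
      unfold Pi0
      split_ifs <;> nlinarith
    calc nf2 (Pi0 d) ≤ ∑ _i : Fin d, ∑ _j : Fin d, (1 : ℝ) :=
          Finset.sum_le_sum fun i _ => Finset.sum_le_sum fun j _ => h3 i j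
      _ = (d : ℝ) ^ 2 := by simp [sq]
  unfold fw
  rw [Real.sqrt_le_left (by linarith)]
  exact ((hF d hd).1 l h0 h1 w (Pi0 d)).trans h2

/-- **The deterministic estimate.** -/
theorem det (hC : S_CON) (hD : S_DIS) (hM : S_MOM) (hP : S_PWB) (hF : S_FWB) (hd : 2 ≤ d)
    {Cs : ℝ} (hCs : 0 < Cs) {n k : ℕ} (hn : 1 ≤ n) (hk : k ≤ n) {w1 w2 w3 : List (Equiv.Perm (Fin d))}
    (hS : ∀ F : Mt d → ℝ, (∀ A, |F A| ≤ 1) → ∀ (c c' : Cf d n) (i i' a b : Fin d), Bal c → Bal c' →
      cn c' = shift (cn c) a b i i' →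
      nf2 (fun x y => rl (cn c) x y - n / d) ≤ (n / (4 * d)) ^ 2 →
      |PW n k w3 F (cn c') - PW n k w3 F (cn c)| ≤ Cs * (w3.length + 1) ^ 2 / Real.sqrt n)
    (hw1 : fw ((k : ℝ) / n) w1 ≤ 2 / Real.sqrt n) {N : ℕ} (h1N : w1.length ≤ N) (h2N : w2.length ≤ N)
    (h3N : w3.length ≤ N)
    (F : Mt d → ℝ) (hF1 : ∀ A, |F A| ≤ 1) (c c' : Cf d n) (hc : Bal c) (hc' : Bal c') :
    |PW n k (w1 ++ (w2 ++ w3)) F (cn c) - PW n k (w1 ++ (w2 ++ w3)) F (cn c')| ≤
      2 * (1024 * d ^ 6 * (N + 1) / n) +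
        (4 * d ^ 2 * (16 * d + Cs) * (N + 1) ^ 3) * ∑ i, ∑ i', QW ((k : ℝ) / n) w2 off i i' := by
  have hn' : (1 : ℝ) ≤ n := by exact_mod_cast hn
  have hn0 : (0 : ℝ) < n := by linarith
  have hd' : (2 : ℝ) ≤ d := by exact_mod_cast hd
  have hd0 : (0 : ℝ) < d := by linarith
  have hN0 : (0 : ℝ) ≤ N := Nat.cast_nonneg N
  have hsq : (0 : ℝ) < Real.sqrt n := Real.sqrt_pos.2 hn0
  have hsq1 : Real.sqrt n * Real.sqrt n = n := Real.mul_self_sqrt hn0.le
  have hsqn : Real.sqrt n ≤ n := by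
    have h1 : (1 : ℝ) ≤ Real.sqrt n := by
      rw [Real.one_le_sqrt]
      exact hn'
    nlinarith
  set l : ℝ := (k : ℝ) / n with hl
  have hl0 : 0 ≤ l := by positivity
  have hl1 : l ≤ 1 := by
    rw [hl, div_le_one hn0]
    exact_mod_cast hk
  set R : ℝ := n / (4 * d) with hR
  have hR0 : 0 < R := by positivity
  set G : Mt d → ℝ := PW n k w3 F with hG
  have hG1 : ∀ A, |G A| ≤ 1 := hP.2.2.2.1 d n k w3 F 1 hF1
  set Gt : Mt d → ℝ := fun A => chi n R A * G A with hGt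
  set L1 : ℝ := (16 * d + Cs) * (N + 1) ^ 2 / Real.sqrt n with hL1
  have hL10 : 0 ≤ L1 := by positivity
  -- Lipschitz bound for Gt
  have hLip : Lip n Gt (fun i i' => L1 * off i i') := by
    intro c₁ c₂ i i' a b hc₁ hc₂ hcc
    by_cases hi : i = i'
    · subst hi
      rw [shift_same] at hcc
      rw [hcc]
      simp only [sub_self, abs_zero]
      exact mul_nonneg hL10 (off_nonneg _ _)
    have hoff : off i i' = 1 := by simp [off, hi]
    change |Gt (cn c₂) - Gt (cn c₁)| ≤ L1 * off i i'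
    rw [hoff, mul_one]
    have e1 : Gt (cn c₂) - Gt (cn c₁) = (chi n R (cn c₂) - chi n R (cn c₁)) * G (cn c₂) +
        chi n R (cn c₁) * (G (cn c₂) - G (cn c₁)) := by
      simp only [hGt]
      ring
    have e2 : |(chi n R (cn c₂) - chi n R (cn c₁)) * G (cn c₂)| ≤ 16 * d / n := by
      rw [abs_mul]
      have e3 := chi_lip n hR0 (cn c₂) (cn c₁)
      have e4 : |rr n (cn c₂) - rr n (cn c₁)| ≤ 2 := by
        rw [hcc]
        exact rr_shift n _ a b i i'
      calc |chi n R (cn c₂) - chi n R (cn c₁)| * |G (cn c₂)| ≤ (2 / R * 2) * 1 :=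
            mul_le_mul (e3.trans (mul_le_mul_of_nonneg_left e4 (by positivity))) (hG1 _)
              (abs_nonneg _) (by positivity)
        _ = 16 * d / n := by
            rw [hR]
            field_simp
            norm_num
    have e5 : |chi n R (cn c₁) * (G (cn c₂) - G (cn c₁))| ≤ Cs * (N + 1) ^ 2 / Real.sqrt n := by
      by_cases hr : R ≤ rr n (cn c₁)
      · rw [chi_eq_zero n hR0 _ hr, zero_mul, abs_zero]
        positivity
      · push Not at hr
        rw [abs_mul, abs_of_nonneg (chi_nonneg _ _ _)]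
        have e6 : nf2 (fun x y => rl (cn c₁) x y - n / d) ≤ (n / (4 * d)) ^ 2 := by
          rw [← rr_sq]
          exact pow_le_pow_left₀ (rr_nonneg _ _) hr.le 2
        have e7 := hS F hF1 c₁ c₂ i i' a b hc₁ hc₂ hcc e6
        have e8 : Cs * ((w3.length : ℝ) + 1) ^ 2 / Real.sqrt n ≤ Cs * (N + 1) ^ 2 / Real.sqrt n := by
          have : (w3.length : ℝ) ≤ N := by exact_mod_cast h3N
          gcongr
        calc chi n R (cn c₁) * |G (cn c₂) - G (cn c₁)| ≤ 1 * (Cs * (N + 1) ^ 2 / Real.sqrt n) :=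
              mul_le_mul (chi_le_one _ _ _) (e7.trans e8) (abs_nonneg _) zero_le_one
          _ = _ := one_mul _
    rw [e1]
    refine (abs_add_le _ _).trans ?_
    have e9 : 16 * (d : ℝ) / n ≤ 16 * d * (N + 1) ^ 2 / Real.sqrt n := by
      rw [div_le_div_iff₀ hn0 hsq]
      have : (1 : ℝ) ≤ (N + 1) ^ 2 := by nlinarith
      have h10 : Real.sqrt n ≤ (N + 1) ^ 2 * n := by nlinarith
      nlinarith [mul_le_mul_of_nonneg_left h10 (show (0 : ℝ) ≤ 16 * d by positivity)]
    calc _ ≤ 16 * (d : ℝ) / n + Cs * (N + 1) ^ 2 / Real.sqrt n := add_le_add e2 e5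
      _ ≤ 16 * d * (N + 1) ^ 2 / Real.sqrt n + Cs * (N + 1) ^ 2 / Real.sqrt n := by linarith
      _ = L1 := by
        rw [hL1]
        ring
  -- H
  set H : Mt d → ℝ := PW n k w2 Gt with hH
  set m : ℝ := ∑ i, ∑ i', QW l w2 off i i' with hm
  have hQ0 : ∀ i i', 0 ≤ QW l w2 (off (d := d)) i i' := QW_nonneg hl0 hl1 w2 _ off_nonneg
  have hm0 : 0 ≤ m := Finset.sum_nonneg fun i _ => Finset.sum_nonneg fun i' _ => hQ0 i i'
  have hLH : Lip n H (fun _ _ => L1 * m) := by
    have h1 := Lip_PW hC hn hk w2 Gt _ (fun i i' => mul_nonneg hL10 (off_nonneg i i')) hLip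
    intro c₁ c₂ i i' a b hc₁ hc₂ hcc
    refine (h1 c₁ c₂ i i' a b hc₁ hc₂ hcc).trans ?_
    rw [QW_smul]
    refine mul_le_mul_of_nonneg_left ?_ hL10
    calc QW l w2 off i i' ≤ ∑ i'', QW l w2 off i i'' :=
          Finset.single_le_sum (fun i'' _ => hQ0 i i'') (Finset.mem_univ i')
      _ ≤ m := Finset.single_le_sum (f := fun i => ∑ i'', QW l w2 off i i'')
          (fun i _ => Finset.sum_nonneg fun i'' _ => hQ0 i i'') (Finset.mem_univ i)
  have hHd : ∀ c₁ c₂ : Cf d n, Bal c₁ → Bal c₂ →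
      |H (cn c₁) - H (cn c₂)| ≤ L1 * m * d * (rr n (cn c₁) + rr n (cn c₂)) := by
    intro c₁ c₂ h1 h2
    refine (hD d n H (L1 * m) (by positivity) hLH c₁ c₂ h1 h2).trans ?_
    calc _ ≤ L1 * m * (d * (rr n (cn c₁) + rr n (cn c₂))) :=
          mul_le_mul_of_nonneg_left (sum_dist_le n _ _) (by positivity)
      _ = _ := by ring
  -- second moment
  have hV : ∀ c : Cf d n, Bal c → PW n k w1 (fun B => rr n B ^ 2) (cn c) ≤ 4 * d ^ 2 * n * (N + 1) := by
    intro c hc
    have h1 := hM d n k hn hk w1 c (fun _ _ => (n : ℝ) / d)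
    have h2 := (hF d (by omega)).2.2.1 l hl0 hl1 n w1 c hc
    have h3 : fw l w1 ^ 2 ≤ 4 / n := by
      calc fw l w1 ^ 2 ≤ (2 / Real.sqrt n) ^ 2 := pow_le_pow_left₀ (fw_nonneg _ _) hw1 2
        _ = 4 / n := by
          rw [div_pow, Real.sq_sqrt hn0.le]
          norm_num
    have h4 : fw l w1 ^ 2 * (d * n) ^ 2 ≤ 4 * d ^ 2 * n := by
      calc fw l w1 ^ 2 * (d * n) ^ 2 ≤ 4 / n * (d * n) ^ 2 :=
            mul_le_mul_of_nonneg_right h3 (by positivity)
        _ = 4 * d ^ 2 * n := by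
          field_simp
    have h5 : (w1.length : ℝ) ≤ N := by exact_mod_cast h1N
    have h6 : 4 * (d : ℝ) ^ 2 * n * w1.length ≤ 4 * d ^ 2 * n * N :=
      mul_le_mul_of_nonneg_left h5 (by positivity)
    simp only [rr_sq]
    linarith
  set s : ℝ := 2 * d * Real.sqrt (n * (N + 1)) with hs
  have hs0 : 0 < s := by positivity
  have hs2 : s ^ 2 = 4 * d ^ 2 * n * (N + 1) := by
    rw [hs, mul_pow, Real.sq_sqrt (by positivity)]
    ring
  have hD1 : ∀ c : Cf d n, Bal c → PW n k w1 (rr n) (cn c) ≤ s := by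
    intro c hc
    have h1 := hP.1 d n k hk w1 (rr n) (fun B => (1 / (2 * s)) * (rr n B ^ 2) + (s / 2) * 1)
      (fun c _ => by
        have h2 : 0 ≤ (rr n (cn c) - s) ^ 2 / (2 * s) := by positivity
        have h3 : (rr n (cn c) - s) ^ 2 / (2 * s) =
            1 / (2 * s) * rr n (cn c) ^ 2 + s / 2 * 1 - rr n (cn c) := by
          field_simp
          ring
        linarith) c hc
    rw [hP.2.1 d n k w1 (fun B => rr n B ^ 2) (fun _ => 1), hP.2.2.1 d n k hk] at h1
    refine h1.trans ?_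
    have h2 : 1 / (2 * s) * PW n k w1 (fun B => rr n B ^ 2) (cn c) ≤ 1 / (2 * s) * s ^ 2 :=
      mul_le_mul_of_nonneg_left ((hV c hc).trans hs2.ge) (by positivity)
    have h3 : 1 / (2 * s) * s ^ 2 = s / 2 := by
      field_simp
    linarith
  -- comparison of the two starts
  have hcomp : ∀ c c' : Cf d n, Bal c → Bal c' →
      PW n k w1 H (cn c) ≤ PW n k w1 H (cn c') + L1 * m * d * (s + s) := by
    intro c c' hc hc'
    have h1 : ∀ c₀ : Cf d n, Bal c₀ →
        PW n k w1 H (cn c) ≤ H (cn c₀) + L1 * m * d * (s + rr n (cn c₀)) := by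
      intro c₀ hc₀
      have h2 := hP.1 d n k hk w1 H (fun B => (L1 * m * d) * rr n B +
        (H (cn c₀) + L1 * m * d * rr n (cn c₀)) * 1) (fun c₁ hc₁ => by
          have h3 := (abs_le.1 (hHd c₁ c₀ hc₁ hc₀)).2
          linarith) c hc
      rw [hP.2.1 d n k w1 (rr n) (fun _ => 1), hP.2.2.1 d n k hk] at h2
      have h4 : L1 * m * d * PW n k w1 (rr n) (cn c) ≤ L1 * m * d * s :=
        mul_le_mul_of_nonneg_left (hD1 c hc) (by positivity)
      linarith
    have h5 := hP.1 d n k hk w1 (fun _ => PW n k w1 H (cn c) - L1 * m * d * s)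
      (fun B => 1 * H B + (L1 * m * d) * rr n B) (fun c₀ hc₀ => by
        have := h1 c₀ hc₀
        linarith) c' hc'
    rw [hP.2.2.1 d n k hk, hP.2.1 d n k w1 H (rr n)] at h5
    have h6 : L1 * m * d * PW n k w1 (rr n) (cn c') ≤ L1 * m * d * s :=
      mul_le_mul_of_nonneg_left (hD1 c' hc') (by positivity)
    linarith
  -- the error of the cut off
  have herr : ∀ c : Cf d n, Bal c →
      |PW n k (w1 ++ (w2 ++ w3)) F (cn c) - PW n k w1 H (cn c)| ≤ 1024 * d ^ 6 * (N + 1) / n := by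
    intro c hc
    have h1 : PW n k (w1 ++ (w2 ++ w3)) F (cn c) = PW n k (w1 ++ w2) G (cn c) := by
      rw [← List.append_assoc, hP.2.2.2.2 d n k (w1 ++ w2) w3]
    have h2 : PW n k w1 H (cn c) = PW n k (w1 ++ w2) Gt (cn c) := by
      rw [hP.2.2.2.2 d n k w1 w2]
    rw [h1, h2, ← PW_sub hP]
    refine (PW_abs hP hk (w1 ++ w2) _ (fun B => (4 / R ^ 2) * (rr n B ^ 2)) (fun A => by
      have h3 : G A - Gt A = (1 - chi n R A) * G A := by
        simp only [hGt]
        ring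
      rw [h3, abs_mul, abs_of_nonneg (sub_nonneg.2 (chi_le_one _ _ _))]
      calc (1 - chi n R A) * |G A| ≤ (1 - chi n R A) * 1 :=
            mul_le_mul_of_nonneg_left (hG1 A) (sub_nonneg.2 (chi_le_one _ _ _))
        _ ≤ _ := by
            rw [mul_one]
            exact one_sub_chi_le n hR0 A) c hc).trans ?_
    rw [PW_smul hP]
    have h4 := hM d n k hn hk (w1 ++ w2) c (fun _ _ => (n : ℝ) / d)
    have h5 := (hF d (by omega)).2.2.1 l hl0 hl1 n (w1 ++ w2) c hc
    have h6 := (hF d (by omega)).2.1 l hl0 hl1 w1 w2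
    have h7 : fw l (w1 ++ w2) ≤ 2 / Real.sqrt n * d :=
      h6.trans (mul_le_mul hw1 (fw_le hF (by omega) hl0 hl1 w2) (fw_nonneg _ _) (by positivity))
    have h8 : fw l (w1 ++ w2) ^ 2 ≤ 4 * d ^ 2 / n := by
      calc fw l (w1 ++ w2) ^ 2 ≤ (2 / Real.sqrt n * d) ^ 2 :=
            pow_le_pow_left₀ (fw_nonneg _ _) h7 2
        _ = 4 * d ^ 2 / n := by
          rw [mul_pow, div_pow, Real.sq_sqrt hn0.le]
          ring
    have h9 : fw l (w1 ++ w2) ^ 2 * (d * n) ^ 2 ≤ 4 * d ^ 4 * n := by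
      calc fw l (w1 ++ w2) ^ 2 * (d * n) ^ 2 ≤ 4 * d ^ 2 / n * (d * n) ^ 2 :=
            mul_le_mul_of_nonneg_right h8 (by positivity)
        _ = 4 * d ^ 4 * n := by
          field_simp
    have h10 : ((w1 ++ w2).length : ℝ) ≤ 2 * N := by
      rw [List.length_append]
      push_cast
      have : (w1.length : ℝ) ≤ N := by exact_mod_cast h1N
      have : (w2.length : ℝ) ≤ N := by exact_mod_cast h2N
      linarith
    have h11 : 4 * (d : ℝ) ^ 2 * n * (w1 ++ w2).length ≤ 8 * d ^ 4 * n * N := by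
      calc 4 * (d : ℝ) ^ 2 * n * (w1 ++ w2).length ≤ 4 * d ^ 2 * n * (2 * N) :=
            mul_le_mul_of_nonneg_left h10 (by positivity)
        _ = 8 * d ^ 2 * n * N := by ring
        _ ≤ 8 * d ^ 4 * n * N := by
          have h12 : (d : ℝ) ^ 2 ≤ d ^ 4 := pow_le_pow_right₀ (by linarith) (by norm_num)
          have : (0 : ℝ) ≤ 8 * n * N := by positivity
          nlinarith
    have h13 : PW n k (w1 ++ w2) (fun B => rr n B ^ 2) (cn c) ≤ 8 * d ^ 4 * n * (N + 1) := by
      simp only [rr_sq]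
      have : (0 : ℝ) ≤ 4 * d ^ 4 * n := by positivity
      linarith
    calc 4 / R ^ 2 * PW n k (w1 ++ w2) (fun B => rr n B ^ 2) (cn c) ≤
        4 / R ^ 2 * (8 * d ^ 4 * n * (N + 1)) := mul_le_mul_of_nonneg_left h13 (by positivity)
      _ = 512 * d ^ 6 * (N + 1) / n := by
        rw [hR]
        field_simp
        norm_num
      _ ≤ _ := by
        have : (0 : ℝ) ≤ (d : ℝ) ^ 6 * (N + 1) := by positivity
        gcongr
        norm_num
  -- conclusion
  have hfin : L1 * m * d * (s + s) ≤ (4 * d ^ 2 * (16 * d + Cs) * (N + 1) ^ 3) * m := by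
    have h1 : Real.sqrt (n * (N + 1)) = Real.sqrt n * Real.sqrt (N + 1) := Real.sqrt_mul hn0.le _
    have h2 : Real.sqrt ((N : ℝ) + 1) ≤ N + 1 := by
      rw [Real.sqrt_le_left (by positivity)]
      nlinarith
    have h3 : L1 * m * d * (s + s) = 4 * d ^ 2 * (16 * d + Cs) * (N + 1) ^ 2 * m *
        Real.sqrt ((N : ℝ) + 1) := by
      rw [hL1, hs, h1]
      field_simp
      ring
    rw [h3]
    calc 4 * (d : ℝ) ^ 2 * (16 * d + Cs) * (N + 1) ^ 2 * m * Real.sqrt ((N : ℝ) + 1) ≤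
        4 * (d : ℝ) ^ 2 * (16 * d + Cs) * (N + 1) ^ 2 * m * (N + 1) :=
          mul_le_mul_of_nonneg_left h2 (by positivity)
      _ = _ := by ring
  have e1 := abs_le.1 (herr c hc)
  have e2 := abs_le.1 (herr c' hc')
  have e3 := hcomp c c' hc hc'
  have e4 := hcomp c' c hc' hc
  rw [abs_le]
  constructor
  · linarith [e1.1, e1.2, e2.1, e2.2]
  · linarith [e1.1, e1.2, e2.1, e2.2]

end Pool.Agent.L7h38.UC
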