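import Pool.Agent.L7h38.UC.Defs

/-!
# Project UC (MP_1e2081_pr, Q2): the statements of the parts

THEOREM. (a) `k_n = l n + O(1)`, all matrices `(1 - l) I + l P_σ` (`μ σ > 0`) invertible: cutoff around
`log n / (2 θ)`, `θ` = the exponent of the products on the vectors with sum zero. (b) Order `log n` for
all sequences `c n ≤ k_n ≤ (1 - c) n` with `|2 k_n - n| ≥ c n`. (c) `d = 2`, `k = n / 2`: mixing in `O(1)`.

Labelled configurations `c : Cf d n` (`c i p` = colour of the ball at position `p` in urn `i`), their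
matrices of counts `cn c`. `PM` : the averaging operator of one ring with permutation `σ` on functions
of matrices, `PW` : of a list of rings (the head is first), `PN` : of `N` rings.

Every part is a `Prop`; a part may assume other parts as hypotheses as said in its docstring.
-/

set_option autoImplicit false

namespace Pool.Agent.L7h38.UC

open Finset Filter Topology

/-- integer matrices -/
abbrev Mt (d : ℕ) := Fin d → Fin d → ℤ

/-- labelled configurations: `c i p` is the colour of the ball at position `p` of urn `i` -/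
abbrev Cf (d n : ℕ) := Fin d → Fin n → Fin d

/-- the matrix of counts -/
def cn {d n : ℕ} (c : Cf d n) : Mt d := fun i j => (#{p | c i p = j} : ℕ)

/-- balanced: `n` balls of each colour -/
def Bal {d n : ℕ} (c : Cf d n) : Prop := ∀ j, ∑ i, cn c i j = n

/-- the average over a finite set -/
noncomputable def av {ι : Type} (s : Finset ι) (g : ι → ℝ) : ℝ := (∑ x ∈ s, g x) / #s

/-- the choices of `k` positions in each urn -/
def Ch (d n k : ℕ) : Finset (Fin d → Finset (Fin n)) :=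
  Fintype.piFinset fun _ => powersetCard k univ

/-- the numbers of balls of the colours in `T` -/
def mf {d n : ℕ} (f : Fin n → Fin d) (T : Finset (Fin n)) : Fin d → ℤ :=
  fun j => (#{p ∈ T | f p = j} : ℕ)

/-- the matrix after the ring -/
def nx {d n : ℕ} (σ : Equiv.Perm (Fin d)) (c : Cf d n) (S : Fin d → Finset (Fin n)) : Mt d :=
  fun i j => cn c i j - mf (c i) (S i) j + mf (c (σ⁻¹ i)) (S (σ⁻¹ i)) j

/-- one ring, on labelled configurations -/
noncomputable def PL {d n : ℕ} (k : ℕ) (σ : Equiv.Perm (Fin d)) (F : Mt d → ℝ) (c : Cf d n) : ℝ :=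
  av (Ch d n k) fun S => F (nx σ c S)

open Classical in
/-- one ring, on matrices -/
noncomputable def PM {d : ℕ} (n k : ℕ) (σ : Equiv.Perm (Fin d)) (F : Mt d → ℝ) (A : Mt d) : ℝ :=
  if h : ∃ c : Cf d n, cn c = A then PL k σ F h.choose else 0

/-- a list of rings (the head is the first ring) -/
noncomputable def PW {d : ℕ} (n k : ℕ) : List (Equiv.Perm (Fin d)) → (Mt d → ℝ) → Mt d → ℝ
  | [], F => F
  | σ :: w, F => PM n k σ (PW n k w F)

/-- `N` rings -/
noncomputable def PN {d : ℕ} (μ : Equiv.Perm (Fin d) → ℝ) (n k N : ℕ) (F : Mt d → ℝ) (A : Mt d) : ℝ :=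
  EW μ N fun w => PW n k w F A

/-- exchange of a ball of colour `a` in urn `i` with a ball of colour `b` in urn `i'` -/
def shift {d : ℕ} (A : Mt d) (a b i i' : Fin d) : Mt d := fun x j =>
  A x j - ((if j = a then 1 else 0) - (if j = b then 1 else 0)) *
    ((if x = i then 1 else 0) - (if x = i' then 1 else 0))

/-- bounds for the changes of `F` in the direction of the pairs of urns -/
def Lip {d : ℕ} (n : ℕ) (F : Mt d → ℝ) (ℓ : Fin d → Fin d → ℝ) : Prop :=
  ∀ (c c' : Cf d n) (i i' a b : Fin d), Bal c → Bal c' → cn c' = shift (cn c) a b i i' →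
    |F (cn c') - F (cn c)| ≤ ℓ i i'

/-- two marked balls, in urns `i` and `i'`, until they are in the same urn -/
def q {d : ℕ} (l : ℝ) (σ : Equiv.Perm (Fin d)) (ℓ : Fin d → Fin d → ℝ) : Fin d → Fin d → ℝ :=
  fun i i' => if i = i' then 0 else
    (1 - l) ^ 2 * ℓ i i' + l * (1 - l) * ℓ (σ i) i' + (1 - l) * l * ℓ i (σ i') +
      l ^ 2 * ℓ (σ i) (σ i')

/-- the same for a list of rings -/
def QW {d : ℕ} (l : ℝ) : List (Equiv.Perm (Fin d)) → (Fin d → Fin d → ℝ) → Fin d → Fin d → ℝ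
  | [], ℓ => ℓ
  | σ :: w, ℓ => q l σ (QW l w ℓ)

/-- the function `1` outside the diagonal -/
def off {d : ℕ} : Fin d → Fin d → ℝ := fun i i' => if i = i' then 0 else 1

/-- `y` can be reached from `x` along `w` by moving or not at each ring -/
def reach {d : ℕ} : List (Equiv.Perm (Fin d)) → Fin d → Fin d → Prop
  | [], x, y => x = y
  | σ :: w, x, y => reach w x y ∨ reach w (σ x) y

/-- real matrix -/
def rl {d : ℕ} (A : Mt d) : Fin d → Fin d → ℝ := fun i j => (A i j : ℝ)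

/-- the constant matrix `x` -/
def cst {d : ℕ} (x : ℝ) : Fin d → Fin d → ℝ := fun _ _ => x

/-! ### Basic parts -/

/-- **RES** (resampling one urn). The map `(S, T) ↦ (Function.update S i T, S i)` is an involution-like
bijection of `Ch × powersetCard k univ`. -/
def S_RES : Prop := ∀ (d n k : ℕ), k ≤ n → ∀ (i : Fin d) (g : (Fin d → Finset (Fin n)) → ℝ),
  av (Ch d n k) g = av (Ch d n k) fun S => av (powersetCard k univ) fun T =>
    g (Function.update S i T)

/-- **HYP** (one urn; hypergeometric mean and variance). `P (x ∈ T) = k / n`,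
`P (x, y ∈ T) = k (k - 1) / (n (n - 1)) ≤ (k / n) ^ 2` for `x ≠ y`; so with `s = #{p | f p = j}` the second
moment of `mf f T j` is at most `(k / n) s + (k / n) ^ 2 s ^ 2`, the variance at most `s ≤ n`. -/
def S_HYP : Prop := ∀ (d n k : ℕ), 1 ≤ n → k ≤ n → ∀ (f : Fin n → Fin d) (j : Fin d),
  av (powersetCard k univ) (fun T : Finset (Fin n) => (mf f T j : ℝ)) =
    k / n * (#{p | f p = j} : ℕ) ∧
  av (powersetCard k univ) (fun T : Finset (Fin n) =>
    ((mf f T j : ℝ) - k / n * (#{p | f p = j} : ℕ)) ^ 2) ≤ n ∧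
  ∀ p : Fin n, av (powersetCard k univ) (fun T : Finset (Fin n) => if p ∈ T then 1 else 0) = k / n

/-- **INV**. For each urn there is a permutation `e i` of the positions with `c' i (e i p) = c i p`
(equal numbers of balls of each colour); transport the choices by `S i ↦ (S i).map (e i)`; `nx` does not
change. -/
def S_INV : Prop := ∀ (d n k : ℕ) (σ : Equiv.Perm (Fin d)) (F : Mt d → ℝ) (c c' : Cf d n),
  cn c = cn c' → PL k σ F c = PL k σ F c'

/-- **NXC**. `c' i p = c i p` for `p ∉ S i`, `c' i p = c (σ⁻¹ i) (e p)` for `p ∈ S i`, with `e` a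
bijection from `S i` to `S (σ⁻¹ i)`. -/
def S_NXC : Prop := ∀ (d n k : ℕ) (σ : Equiv.Perm (Fin d)) (c : Cf d n)
  (S : Fin d → Finset (Fin n)), S ∈ Ch d n k →
    ∃ c' : Cf d n, cn c' = nx σ c S ∧ (Bal c → Bal c')

/-- **SWP** (may assume `S_INV`). Since `cn c' i a = cn c i a - 1` and
`cn c' i' b = cn c i' b - 1` are not negative there are `p`, `p'` with `c i p = a`,
`c i' p' = b`; let `c''` be `c` with these two balls exchanged: `cn c'' = cn c'`, so `PL` agrees by
INV, and `nx σ c'' S` is the shift of `nx σ c S` as stated. -/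
def S_SWP : Prop := ∀ (d n : ℕ) (c c' : Cf d n) (i i' a b : Fin d), i ≠ i' → a ≠ b →
  cn c' = shift (cn c) a b i i' → ∃ p p' : Fin n, c i p = a ∧ c i' p' = b ∧
    ∀ (k : ℕ) (σ : Equiv.Perm (Fin d)) (F : Mt d → ℝ),
      PL k σ F c' = av (Ch d n k) fun S => F (shift (nx σ c S) a b
        (if p ∈ S i then σ i else i) (if p' ∈ S i' then σ i' else i'))

/-- **CON** (contraction; may assume `S_RES`, `S_HYP`, `S_INV`, `S_NXC`, `S_SWP`). If `i = i'` or
`a = b` then `cn c' = cn c`. Otherwise by SWP the difference is the average of the changes of `F` between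
`nx σ c S` and its shift, at most `ℓ (loc p) (loc p')`, and `0` if `loc p = loc p'`; `p ∈ S i` and
`p' ∈ S i'` are independent of probability `k / n` (RES twice and HYP). The shift of `nx σ c S` is the
matrix of a balanced configuration: NXC for `c` with the two balls exchanged (state that as a lemma, or
use `c'` transported; see SWP). -/
def S_CON : Prop := ∀ (d n k : ℕ), 1 ≤ n → k ≤ n → ∀ (σ : Equiv.Perm (Fin d)) (F : Mt d → ℝ)
  (ℓ : Fin d → Fin d → ℝ), (∀ i i', 0 ≤ ℓ i i') → Lip n F ℓ → Lip n (PM n k σ F) (q (k / n) σ ℓ)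

/-- **QN** (the two marked balls meet). Let `u_N i i' = EW μ N (fun w => QW l w off i i')`; it
is between `0` and `1`, nonincreasing in `N`, `0` on the diagonal. If there is a path of length `m` from
`i'` to `i` then `u_m i i' ≤ 1 - δ ^ m`, `δ = c ^ 2 min μ`: the first ball stays, the second follows the path
(induction on `m`; the total weight of `q` is `1`). So `u_M ≤ 1 - δ ^ M` for `M` = the greatest
length of a shortest path, and `u_{M + N} ≤ (1 - δ ^ M) max u_N` (`QW l (v ++ w) ℓ = QW l v (QW l w ℓ)`,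
`QW` is linear and monotone). -/
def S_QN : Prop := ∀ (d : ℕ) (μ : Equiv.Perm (Fin d) → ℝ), Pr μ → Irr μ → ∀ c : ℝ, 0 < c →
  ∃ C ρ : ℝ, 0 < C ∧ 0 < ρ ∧ ρ < 1 ∧ ∀ l : ℝ, c ≤ l → l ≤ 1 - c → ∀ (N : ℕ) (i i' : Fin d),
    EW μ N (fun w => QW l w off i i') ≤ C * ρ ^ N

/-- **RCH**. There is a list `v` that contains all paths (concatenate, for all pairs `x, y`, paths from
`x` to `y`, all with positive `μ`; `reach` is monotone under adding letters); the probability that a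
random list of length `N` has none of the blocks `1..M`, `M+1..2M`, ... equal to `v` (`M` its length) is at
most `(1 - p) ^ (N / M)`. -/
def S_RCH : Prop := ∀ (d : ℕ) (μ : Equiv.Perm (Fin d) → ℝ), Pr μ → Irr μ →
  ∃ C ρ : ℝ, 0 < C ∧ 0 < ρ ∧ ρ < 1 ∧ ∀ N : ℕ,
    EW μ N (fun w => open Classical in if ∀ x y, reach w x y then 0 else 1) ≤ C * ρ ^ N

/-- **DIS** (Lipschitz functions). Induction on the distance: if `A = cn c ≠ B = cn c'` choose `(i, a)` with
`A i a > B i a`, `i'` with `A i' a < B i' a` (sums of the columns), `b` with `A i' b > B i' b`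
(sums of the rows): the exchange of an `a` in urn `i` with a `b` in urn `i'` (a balanced
configuration) reduces the distance to `B` by at least `2`. -/
def S_DIS : Prop := ∀ (d n : ℕ) (F : Mt d → ℝ) (L : ℝ), 0 ≤ L → Lip n F (fun _ _ => L) →
  ∀ c c' : Cf d n, Bal c → Bal c' →
    |F (cn c) - F (cn c')| ≤ L * ∑ i, ∑ j, |rl (cn c) i j - rl (cn c') i j|

/-- **MOM** (second moments; may assume `S_RES`, `S_HYP`, `S_INV`, `S_NXC`). Induction on `w`. One ring, for the
linear contraction `L = mw l w`: the mean of `nx σ c S` is `ms l σ (cn c)` and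
the mean of `nf2 (nx σ c S - ms l σ (cn c))` is at most `4 d ^ 2 n`, so the mean of
`nf2 (L (nx σ c S) - z)` is at most `nf2 (L (ms l σ (cn c)) - z) + 4 d ^ 2 n` (no cross term). -/
def S_MOM : Prop := ∀ (d n k : ℕ), 1 ≤ n → k ≤ n → ∀ (w : List (Equiv.Perm (Fin d))) (c : Cf d n)
  (z : Fin d → Fin d → ℝ),
    PW n k w (fun B => nf2 (fun i j => rl B i j - z i j)) (cn c) ≤
      nf2 (fun i j => mw (k / n) w (rl (cn c)) i j - z i j) + 4 * d ^ 2 * n * w.length

/-- **PWB** (may assume `S_INV`, `S_NXC`). Simple rules for `PW`, by induction on `w`: it is monotone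
and linear on balanced configurations, fixes constants, and is bounded everywhere. -/
def S_PWB : Prop :=
  (∀ (d n k : ℕ), k ≤ n → ∀ (w : List (Equiv.Perm (Fin d))) (F G : Mt d → ℝ),
    (∀ c : Cf d n, Bal c → F (cn c) ≤ G (cn c)) → ∀ c : Cf d n, Bal c →
      PW n k w F (cn c) ≤ PW n k w G (cn c)) ∧
  (∀ (d n k : ℕ) (w : List (Equiv.Perm (Fin d))) (F G : Mt d → ℝ) (x y : ℝ) (A : Mt d),
    PW n k w (fun B => x * F B + y * G B) A = x * PW n k w F A + y * PW n k w G A) ∧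
  (∀ (d n k : ℕ), k ≤ n → ∀ (w : List (Equiv.Perm (Fin d))) (x : ℝ) (c : Cf d n),
    PW n k w (fun _ => x) (cn c) = x) ∧
  (∀ (d n k : ℕ) (w : List (Equiv.Perm (Fin d))) (F : Mt d → ℝ) (x : ℝ), (∀ A, |F A| ≤ x) →
    ∀ A, |PW n k w F A| ≤ x) ∧
  (∀ (d n k : ℕ) (v w : List (Equiv.Perm (Fin d))) (F : Mt d → ℝ) (A : Mt d),
    PW n k (v ++ w) F A = PW n k v (PW n k w F) A)

/-- **EXC** (exchange in one urn; may assume `S_HYP`). Let `v = e_a - e_b`, `m T = mf f T`,
`a' T` = number of `x ∈ T`, `f x = a`, `x ≠ p`, same for `b'`, and `α'`, `β'` the total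
numbers. The pairs `(T, x, y)` with `x ∈ T` of colour `b`, `y ∉ T` of colour `a`, `x, y ≠ p`,
correspond to the pairs `(T' = T - x + y, x, y)`, and `m T' = m T + v`: so
`∑ b'(T) (α' - a'(T)) G (m T + v) = ∑ a'(T') (β' - b'(T')) G (m T')`, sums over the `T` (resp. `T'`) that
contain `p`, or over those that do not. Both weights are `κ = l (1 - l) α β`, `l = k / n`,
up to an error `≤ 4 n (|a(T) - l α| + |b(T) - l β| + 1)`, whose mean is at most `16 n ^ (3 / 2)` by HYP, and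
`κ ≥ c ^ 4 n ^ 2`. -/
def S_EXC : Prop := ∀ c0 : ℝ, 0 < c0 → ∃ C : ℝ, 0 < C ∧ ∀ (d n k : ℕ) (f : Fin n → Fin d) (a b : Fin d)
  (p : Fin n) (K : (Fin d → ℤ) → ℝ), a ≠ b → (∀ m, |K m| ≤ 1) → c0 * n ≤ k → k ≤ (1 - c0) * n →
    c0 * n ≤ (#{x | f x = a} : ℕ) → c0 * n ≤ (#{x | f x = b} : ℕ) →
    |av (powersetCard k univ) (fun T => if p ∈ T then
      K (fun j => mf f T j + ((if j = a then 1 else 0) - (if j = b then 1 else 0))) -
        K (mf f T) else 0)| ≤ C / Real.sqrt n ∧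
    |av (powersetCard k univ) (fun T => if p ∈ T then 0 else
      K (fun j => mf f T j + ((if j = a then 1 else 0) - (if j = b then 1 else 0))) -
        K (mf f T))| ≤ C / Real.sqrt n

/-- **TRA** (transfer of the two ends; may assume `S_RES`, `S_EXC`, `S_SWP`). By SWP the first term is the
average of `F (shift (nx σ c S) a b (loc p) (loc p'))`. Replace `loc p` by `e`: the terms
differ only if `p ∈ S i` (for `e = i`) or `p ∉ S i` (for `e = σ i`); resample `S i`
(RES): with the other sets fixed, `nx` with `S i = T` is a function of `m = mf (c i) T`, and replacing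
`m` by `m + (e_a - e_b)` is the shift of one `a` from `i` to `σ i`; apply EXC to this function of `m`
(exchanging `a` and `b` when needed). Then replace `loc p'` by `e'`. -/
def S_TRA : Prop := ∀ c0 : ℝ, 0 < c0 → ∃ C : ℝ, 0 < C ∧ ∀ (d n k : ℕ) (σ : Equiv.Perm (Fin d))
  (c c' : Cf d n) (i i' a b e e' : Fin d) (F : Mt d → ℝ), i ≠ i' → a ≠ b →
    cn c' = shift (cn c) a b i i' → (∀ A, |F A| ≤ 1) → c0 * n ≤ k → k ≤ (1 - c0) * n →
    (∀ x y, c0 * n ≤ (cn c x y : ℝ)) → (e = i ∨ e = σ i) → (e' = i' ∨ e' = σ i') →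
    |PL k σ F c' - PL k σ (fun B => F (shift B a b e e')) c| ≤ C / Real.sqrt n

/-- **SMO** (smoothing; may assume `S_TRA`, `S_MOM`, `S_PWB`, `S_INV`, `S_NXC`). Let
`Bk A := nf2 (A - n / d) ≤ (n / (2 d)) ^ 2` (then all entries of `A` are `≥ n / (2 d)`). Define
`err [] A = 0`, `err (σ :: w) A = (C / √n) + 2 * (if Bk A then 0 else 1) + PM σ (err w) A`. By
induction on `w`, for `reach w i' i`: `|PW w F (cn c') - PW w F (cn c)| ≤ err w (cn c)`: if `i = i'` both
are equal; else apply TRA with `e = i`, `e' = i'` or `σ i'` (so that `reach w e' i`) and the function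
`PW w F`, and the induction hypothesis under the average (the shift of `nx σ c S` by
`a b i e'` must be the matrix of a balanced configuration to apply it; when it is not, `e' ≠ i` and
some entry of `nx σ c S` is `0`, so that `Bk (nx σ c S)` fails: add `2` in `err w` for this case, that is,
prove `|PW w F (shift A a b i e') - PW w F A| ≤ err w A + 2 * (if Bk A then 0 else 1)` for all `A = cn c`).
Finally MOM with `z = n / d`, Chebyshev: `PW w' (1 - Bk) (cn c) ≤ 64 d ^ 4 (|w'| + 1) / n`, as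
`nf2 (mw l w' (cn c) - n / d) ≤ nf2 (cn c - n / d) ≤ (n / (4 d)) ^ 2`. -/
def S_SMO : Prop := ∀ (d : ℕ), 2 ≤ d → ∀ c0 : ℝ, 0 < c0 → ∃ C : ℝ, 0 < C ∧ ∀ (n k : ℕ), 1 ≤ n →
  c0 * n ≤ k → k ≤ (1 - c0) * n → ∀ (w : List (Equiv.Perm (Fin d))) (F : Mt d → ℝ),
    (∀ A, |F A| ≤ 1) → ∀ (c c' : Cf d n) (i i' a b : Fin d), Bal c → Bal c' →
      cn c' = shift (cn c) a b i i' → reach w i' i →
      nf2 (fun x y => rl (cn c) x y - n / d) ≤ (n / (4 * d)) ^ 2 →
      |PW n k w F (cn c') - PW n k w F (cn c)| ≤ C * (w.length + 1) ^ 2 / Real.sqrt n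

/-! ### Products of matrices -/

/-- the hypothesis: all the matrices are invertible -/
def Inve {d : ℕ} (μ : Equiv.Perm (Fin d) → ℝ) (l : ℝ) : Prop :=
  ∀ σ, 0 < μ σ → ∀ B : Fin d → Fin d → ℝ, ms l σ B = 0 → B = 0

/-- `θ` is the exponent of the products -/
def Expo {d : ℕ} (μ : Equiv.Perm (Fin d) → ℝ) (l θ : ℝ) : Prop :=
  Tendsto (fun N : ℕ => EW μ N (fun w => Real.log (fw l w)) / N) atTop (𝓝 (-θ))

/-- **FWB** (rules for `fw`). `mw` is linear; `ms` does not increase `nf2`; `fw` is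
submultiplicative (`mw l (v ++ w) Pi0` = (product of the matrices of `w`) * (product for `v`) * `Pi0`, the
matrices commute with `Pi0`, `Pi0 ^ 2 = Pi0`; `nf2 (A B) ≤ nf2 A * nf2 B`); the start `n` times the identity has
mean displacement `n Pi0`; any balanced matrix `A` has `A - n / d = Pi0 * A`; the dependence on
`l`: telescoping, `‖M_l - M_l'‖ ≤ 2 |l - l'|`. -/
def S_FWB : Prop := ∀ d : ℕ, 1 ≤ d →
  (∀ l : ℝ, 0 ≤ l → l ≤ 1 → ∀ (w : List (Equiv.Perm (Fin d))) (B : Fin d → Fin d → ℝ),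
    nf2 (mw l w B) ≤ nf2 B) ∧
  (∀ l : ℝ, 0 ≤ l → l ≤ 1 → ∀ v w : List (Equiv.Perm (Fin d)), fw l (v ++ w) ≤ fw l v * fw l w) ∧
  (∀ l : ℝ, 0 ≤ l → l ≤ 1 → ∀ (n : ℕ) (w : List (Equiv.Perm (Fin d))) (c : Cf d n), Bal c →
    nf2 (fun i j => mw l w (rl (cn c)) i j - n / d) ≤ fw l w ^ 2 * (d * n) ^ 2) ∧
  (∀ (l x : ℝ) (w : List (Equiv.Perm (Fin d))), 
    nf2 (fun i j => mw l w (fun i j => if i = j then x else 0) i j - x / d) = x ^ 2 * fw l w ^ 2) ∧
  (∀ l l' : ℝ, 0 ≤ l → l ≤ 1 → 0 ≤ l' → l' ≤ 1 → ∀ w : List (Equiv.Perm (Fin d)),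
    |fw l w - fw l' w| ≤ 2 * d * w.length * |l - l'|)

/-- **SQF** (mean square contraction; may assume `S_FWB`).
`nf2 (ms l σ B) = nf2 B - l (1 - l) nf2 (B - P_σ B)` and `∑ σ, μ σ nf2 (B - P_σ B) ≥ g nf2 B` for `B` with
column sums zero (irreducibility: if the left side is `0` then `B` is constant along all steps, so
constant, so `0`; compactness, or a path argument); so the expectation of `nf2 (mw l w Pi0)` is at most
`d (1 - c ^ 2 g) ^ N`. -/
def S_SQF : Prop := ∀ (d : ℕ) (μ : Equiv.Perm (Fin d) → ℝ), 1 ≤ d → Pr μ → Irr μ → ∀ c : ℝ, 0 < c →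
  ∃ C ρ : ℝ, 0 < C ∧ 0 < ρ ∧ ρ < 1 ∧ ∀ l : ℝ, c ≤ l → l ≤ 1 - c → ∀ N : ℕ,
    EW μ N (fun w => fw l w ^ 2) ≤ C * ρ ^ N

/-- **LYA** (exponent; may assume `S_FWB`, `S_SQF`). `a_N = EW μ N (log fw)` is subadditive (Fekete,
`Subadditive.tendsto_lim`), bounded below by `N log s` (`nf2 (ms l σ B) ≥ s ^ 2 nf2 B`, `s > 0` by
invertibility and finite dimension; `nf2 Pi0 = d - 1 ≥ 1`), so `a_N / N → -θ = inf a_N / N`. `θ > 0`:
`EW (fw ^ 2) ≤ C ρ ^ N` by SQF; Jensen. Large deviations above: `b_N = EW (fw ^ η) ≤ b_m ^ (N / m) * const` and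
`b_m ≤ 1 + η a_m + η ^ 2 K` for small `η`; below: `a_N ≥ - θ N`, `fw ≤ √d` and the first part. -/
def S_LYA : Prop := ∀ (d : ℕ) (μ : Equiv.Perm (Fin d) → ℝ) (l : ℝ), 2 ≤ d → Pr μ → Irr μ → 0 < l →
  l < 1 → Inve μ l → ∃ θ : ℝ, 0 < θ ∧ Expo μ l θ ∧ ∀ ε : ℝ, 0 < ε →
    Tendsto (fun N : ℕ => EW μ N (fun w => if Real.exp (-(θ - ε) * N) < fw l w then 1 else 0))
      atTop (𝓝 0) ∧
    Tendsto (fun N : ℕ => EW μ N (fun w => if fw l w < Real.exp (-(θ + ε) * N) then 1 else 0))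
      atTop (𝓝 0)

/-! ### The discrete chain -/

/-- the deviation at time `N`: `|P^N F (A) - P^N F (B)| ≤ η` for all `|F| ≤ 1` and all states -/
def Mix {d : ℕ} (μ : Equiv.Perm (Fin d) → ℝ) (n k N : ℕ) (η : ℝ) : Prop :=
  ∀ F : Mt d → ℝ, (∀ A, |F A| ≤ 1) → ∀ c c' : Cf d n, Bal c → Bal c' →
    |PN μ n k N F (cn c) - PN μ n k N F (cn c')| ≤ η

/-- **UPO** (mixing in `O (log n)` rings; may assume `S_CON`, `S_QN`, `S_DIS`, `S_PWB`).
`Lip n (PW w F) (QW l w (2 off))` by CON (use that `cn c' = cn c` if `i = i'`), average over `w`, DIS (the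
distance of two states is at most `2 d n`). -/
def S_UPO : Prop := ∀ (d : ℕ) (μ : Equiv.Perm (Fin d) → ℝ), Pr μ → Irr μ → ∀ c0 : ℝ, 0 < c0 →
  ∃ C ρ : ℝ, 0 < C ∧ 0 < ρ ∧ ρ < 1 ∧ ∀ n k N : ℕ, 1 ≤ n → c0 * n ≤ k → k ≤ (1 - c0) * n →
    Mix μ n k N (C * n * ρ ^ N)

/-- **UPS** (the sharp upper bound; may assume `S_CON`, `S_QN`, `S_RCH`, `S_DIS`, `S_MOM`, `S_PWB`, `S_SMO`,
`S_FWB`; helper38 does it). -/
def S_UPS : Prop := ∀ (d : ℕ) (μ : Equiv.Perm (Fin d) → ℝ) (l θ : ℝ), 2 ≤ d → Pr μ → Irr μ → 0 < l →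
  l < 1 → 0 < θ → (∀ ε : ℝ, 0 < ε →
    Tendsto (fun N : ℕ => EW μ N (fun w => if Real.exp (-(θ - ε) * N) < fw l w then 1 else 0))
      atTop (𝓝 0)) →
  ∀ C0 : ℝ, ∀ k : ℕ → ℕ, (∀ n : ℕ, |(k n : ℝ) - l * n| ≤ C0) → ∀ ε η : ℝ, 0 < ε → 0 < η →
    ∀ᶠ n : ℕ in atTop, ∀ N : ℕ, (1 + ε) * Real.log n / (2 * θ) ≤ N → Mix μ n (k n) N η

/-- **LOW** (lower bound; may assume `S_MOM`, `S_PWB`, `S_FWB`). MOM with `z = mw l w (cn c)`, FWB (fourth
rule), Chebyshev: the mean displacement is `n fw`, the fluctuations `≤ 2 d √(n N)`. `F` = indicator of `nf2 (A - n / d) ≤ n ^ (1 + δ)`, start `n` times the identity.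
Hypothesis: `fw (k / n) w ≥ n ^ (-1/2 + δ)` with large probability at time `N`. -/
def S_LOW : Prop := ∀ (d : ℕ) (μ : Equiv.Perm (Fin d) → ℝ), 2 ≤ d → Pr μ → ∀ δ : ℝ, 0 < δ → ∀ η : ℝ,
  0 < η → ∀ K : ℝ, ∀ᶠ n : ℕ in atTop, ∀ k : ℕ, k ≤ n → ∀ N : ℕ, N ≤ K * Real.log n →
    EW μ N (fun w => if fw ((k : ℝ) / n) w < (n : ℝ) ^ (-(1 / 2 : ℝ) + δ) then 1 else 0) ≤ η →
    PN μ n k N (fun A => open Classical in
      if nf2 (fun i j => rl A i j - n / d) ≤ (n : ℝ) ^ (1 + δ) then 1 else 0)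
      (fun i j => if i = j then (n : ℤ) else 0) ≤ 2 * η

/-- **TYP** (the event has large probability at large times, under any start; may assume `S_MOM`, `S_PWB`,
`S_FWB`, `S_SQF`, `S_NXC`). For `N = N0 = ⌈K log n⌉`: MOM with `z = n / d`, FWB (third rule), SQF, Markov;
for `N ≥ N0` the last `N0` rings (`PN (M + N0) F = PN M (PN N0 F)`). -/
def S_TYP : Prop := ∀ (d : ℕ) (μ : Equiv.Perm (Fin d) → ℝ), 2 ≤ d → Pr μ → Irr μ → ∀ c0 : ℝ, 0 < c0 →
  ∀ δ : ℝ, 0 < δ → ∀ η : ℝ, 0 < η → ∃ K : ℝ, ∀ᶠ n : ℕ in atTop, ∀ k : ℕ, c0 * n ≤ k →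
    k ≤ (1 - c0) * n → ∀ N : ℕ, K * Real.log n ≤ N → ∀ c : Cf d n, Bal c →
    1 - η ≤ PN μ n k N (fun A => open Classical in
      if nf2 (fun i j => rl A i j - n / d) ≤ (n : ℝ) ^ (1 + δ) then 1 else 0) (cn c)

end Pool.Agent.L7h38.UC
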