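import Pool.Agent.L7h38.UC.Stm

/-!
# Project UC (MP_1e2081_pr, Q2): continuous time, the counterexample, the final statements
-/

set_option autoImplicit false

namespace Pool.Agent.L7h38.UC

open Finset Filter Topology

/-- the integer matrix of a state -/
def mt {d n : ℕ} (A : St d n) : Mt d := fun i j => ((A.1 i j : ℕ) : ℤ)

/-- the Poisson weights -/
noncomputable def pois (t : ℝ) (N : ℕ) : ℝ := Real.exp (-t) * t ^ N / (N.factorial : ℝ)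

/-- **REP**. States and balanced configurations. -/
def S_REP : Prop := ∀ d n : ℕ, (∀ A : St d n, ∃ c : Cf d n, Bal c ∧ cn c = mt A) ∧
  ∀ c : Cf d n, Bal c → ∃ A : St d n, mt A = cn c

/-- **BRI** (may assume `S_REP`, `S_INV`, `S_NXC`). For `N = 1`: with `cn c = mt A` choose bijections
`e i : Fin n ≃ Balls A i` with `(e i p).1 = c i p`; the choices correspond by
`S i ↦ (S i).map (e i)`, and `#{x ∈ S i | x.1 = j}` is `mf (c i) (S i) j`; so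
`∑ B, ring μ k A B * F (mt B) = ∑ σ, μ σ * PM n k σ F (mt A)` (every choice leads to a state; natural
subtraction is harmless since `number (S i) j ≤ A i j`). Then induction on `N`
(`pow_succ'`: the first ring first). -/
def S_BRI : Prop := ∀ (d n k : ℕ) (μ : Equiv.Perm (Fin d) → ℝ) (N : ℕ) (F : Mt d → ℝ) (A : St d n),
  ∑ B, (Matrix.of (ring μ k) ^ N) A B * F (mt B) = PN μ n k N F (mt A)

/-- **PNR** (rules for `PN`; may assume `S_PWB`). By `S_PWB` and induction on `M`. -/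
def S_PNR : Prop :=
  (∀ (d n k : ℕ) (μ : Equiv.Perm (Fin d) → ℝ) (M N : ℕ) (F : Mt d → ℝ) (A : Mt d),
    PN μ n k (M + N) F A = PN μ n k M (PN μ n k N F) A) ∧
  (∀ (d n k : ℕ) (μ : Equiv.Perm (Fin d) → ℝ), Pr μ → k ≤ n → ∀ (N : ℕ) (F G : Mt d → ℝ),
    (∀ c : Cf d n, Bal c → F (cn c) ≤ G (cn c)) → ∀ c : Cf d n, Bal c →
      PN μ n k N F (cn c) ≤ PN μ n k N G (cn c)) ∧
  (∀ (d n k : ℕ) (μ : Equiv.Perm (Fin d) → ℝ) (N : ℕ) (F G : Mt d → ℝ) (x y : ℝ) (A : Mt d),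
    PN μ n k N (fun B => x * F B + y * G B) A = x * PN μ n k N F A + y * PN μ n k N G A) ∧
  (∀ (d n k : ℕ) (μ : Equiv.Perm (Fin d) → ℝ), Pr μ → k ≤ n → ∀ (N : ℕ) (x : ℝ) (c : Cf d n),
    PN μ n k N (fun _ => x) (cn c) = x) ∧
  (∀ (d n k : ℕ) (μ : Equiv.Perm (Fin d) → ℝ), Pr μ → ∀ (N : ℕ) (F : Mt d → ℝ) (x : ℝ),
    (∀ A, |F A| ≤ x) → ∀ A, |PN μ n k N F A| ≤ x) ∧
  (∀ (d n k : ℕ) (μ : Equiv.Perm (Fin d) → ℝ), Pr μ → ∀ (M N : ℕ) (η : ℝ), Mix μ n k M η → M ≤ N →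
    Mix μ n k N η)

/-- **CTU** (upper bound in continuous time; may assume `S_REP`, `S_BRI`, `S_PNR`). With
`V = Matrix.of (ring μ k)`: `∑ B, π B * F (mt B) = ∑ A, π A * (V ^ N F) (mt A)` (stationarity), so for
`N ≥ M` and `F` = sign of the difference, `∑ B, |(V ^ N) A B - π B| ≤ η`; for `N < M` it is at most `2`;
then sum with the Poisson weights (`∑' N, pois t N = 1`). -/
def S_CTU : Prop := ∀ (d n k : ℕ) (μ : Equiv.Perm (Fin d) → ℝ), Pr μ → k ≤ n → ∀ (M : ℕ) (η : ℝ),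
  Mix μ n k M η → ∀ π : St d n → ℝ, Stationary μ k π → ∀ t : ℝ, 0 ≤ t →
    dn μ k π t ≤ η / 2 + ∑ N ∈ range M, pois t N

/-- **CTL** (lower bound in continuous time; may assume `S_REP`, `S_BRI`, `S_PNR`). With `A` the state of
`c`: `∑ B, π B * F (mt B) ≥ 1 - b` by stationarity and the second hypothesis;
`∑ B, law μ k t A B * F (mt B) ≤ a + (1 - ∑ N ∈ range (M + 1), pois t N)`; and
`(1 / 2) ∑ B, |law - π| ≥ ∑ B, (π B - law B) F B` since `0 ≤ F ≤ 1` and both sum to `1`. -/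
def S_CTL : Prop := ∀ (d n k : ℕ) (μ : Equiv.Perm (Fin d) → ℝ), Pr μ → k ≤ n →
  ∀ (M M' : ℕ) (a b : ℝ) (F : Mt d → ℝ) (c : Cf d n), Bal c → (∀ A, 0 ≤ F A ∧ F A ≤ 1) →
    (∀ N ≤ M, PN μ n k N F (cn c) ≤ a) →
    (∀ c' : Cf d n, Bal c' → 1 - b ≤ PN μ n k M' F (cn c')) →
    ∀ π : St d n → ℝ, Stationary μ k π → ∀ t : ℝ, 0 ≤ t →
      ∑ N ∈ range (M + 1), pois t N - a - b ≤ dn μ k π t

/-- **PTL** (Poisson tails). For `0 < s < 1`:
`∑ m ∈ range N, pois t m ≤ s ^ (-N) * exp (- t (1 - s))`, with `s = 1 / (1 + ε)` and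
`log (1 + ε) < ε`; for `s > 1`: `1 - ∑ m ∈ range (N + 1), pois t m ≤ s ^ (-N) * exp (t (s - 1))`, with
`s = 1 / (1 - ε)`. (For `ε ≥ 1` the second claim concerns only `t = 0` or nothing.) -/
def S_PTL : Prop := ∀ ε η : ℝ, 0 < ε → 0 < η → ∃ X : ℝ, 0 < X ∧ ∀ x : ℝ, X ≤ x → ∀ N : ℕ,
  ((N : ℝ) ≤ x → ∀ t : ℝ, (1 + ε) * x ≤ t → ∑ m ∈ range N, pois t m ≤ η) ∧
  (x ≤ N → ∀ t : ℝ, 0 ≤ t → t ≤ (1 - ε) * x → 1 - ∑ m ∈ range (N + 1), pois t m ≤ η)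

/-- **ITR** (iteration; may assume `S_PNR`). Induction on `N`: for `|F| ≤ 1` the function
`G = PN (M * N) F` has oscillation at most `2 ρ ^ N` on the balanced configurations; subtract a constant
and change it outside the balanced configurations so that `|G'| ≤ ρ ^ N` everywhere. -/
def S_ITR : Prop := ∀ (d n k : ℕ) (μ : Equiv.Perm (Fin d) → ℝ), Pr μ → k ≤ n → ∀ (M : ℕ) (ρ : ℝ),
  0 ≤ ρ → Mix μ n k M (2 * ρ) → ∀ N : ℕ, Mix μ n k (M * N) (2 * ρ ^ N)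

/-! ### The counterexample -/

/-- the point mass at the transposition -/
def mu2 : Equiv.Perm (Fin 2) → ℝ := fun σ => if σ = Equiv.swap 0 1 then 1 else 0

/-- **BIN**. First: for `h = ⌊a / 2⌋ - s` the quotient of `C(a, h)` by the middle coefficient is at least
`(1 - c s / a) ^ s ≥ exp (- c' s ^ 2 / a)` for `s` small compared with `a`, and the middle coefficient is at
least `c 2 ^ a / √a` (for bounded `a` take `κ` small). Second: `m C(2 m, m) ^ 2 ≤ 16 ^ m` by induction. -/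
def S_BIN : Prop := (∀ K : ℝ, 0 < K → ∃ κ : ℝ, 0 < κ ∧ ∀ a h : ℕ, 1 ≤ a → h ≤ a →
    |(h : ℝ) - a / 2| ≤ K * Real.sqrt a → κ * 2 ^ a / Real.sqrt a ≤ (a.choose h : ℝ)) ∧
  ∀ m : ℕ, 1 ≤ m → ((2 * m).choose m : ℝ) ≤ 4 ^ m / Real.sqrt m

/-- **HYD** (the hypergeometric law; `d = 2`). -/
def S_HYD : Prop := ∀ (n k h : ℕ) (f : Fin n → Fin 2), h ≤ k →
  av (powersetCard k univ) (fun T : Finset (Fin n) => if mf f T 0 = h then 1 else 0) =
    ((#{p | f p = 0} : ℕ).choose h : ℝ) * ((#{p | f p = 1} : ℕ).choose (k - h) : ℝ) / (n.choose k : ℝ)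

/-- **LCL** (local lower bound; may assume `S_BIN`, `S_HYD`, `S_RES`). Let `a = cn c 0 0`, so urn `1`
contains `2 m - a` balls of colour `0`. `nx σ c S 0 0 = a - X + Y` with independent hypergeometric `X`
(urn `0`) and `Y` (urn `1`); each of the values `X = h`, `Y = b - a + h` with
`|h - m / 2| ≤ √m` has probability at least `κ / √m` by HYD and BIN (`|a - m| ≤ 4 √m`), and there are
at least `√m / 2` such `h`. For `m ≥ m0` all of `a`, `2 m - a` are at least `m / 2`. -/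
def S_LCL : Prop := ∃ (κ : ℝ) (m0 : ℕ), 0 < κ ∧ ∀ m : ℕ, m0 ≤ m → ∀ c : Cf 2 (2 * m), Bal c →
  |(cn c 0 0 : ℝ) - m| ≤ 4 * Real.sqrt m → ∀ b : ℤ, 0 ≤ b → b ≤ 2 * m →
    |(b : ℝ) - m| ≤ Real.sqrt m →
    κ / Real.sqrt m ≤ PL m (Equiv.swap 0 1) (fun A => if A 0 0 = b then 1 else 0) c

/-- **CEX** (may assume `S_LCL`, `S_MOM`, `S_INV`, `S_NXC`, `S_PWB`). A balanced matrix is determined by its
entry `0 0`. By MOM for one ring (`mw (1/2) [σ] A` is the constant `m`) the entry after the first ring is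
within `4 √m` of `m` with probability at least `1 / 2` ... (`nf2 = 4 (x - m) ^ 2` for the entry `x`, mean
at most `4 * 4 * 2 m`; so `P (|x - m| > 4 √m) ≤ 32 m / (4 * 16 m) = 1 / 2`), and by LCL it is then equal
to each `b` with `|b - m| ≤ √m` with probability at least `κ / √m` after the second ring: for all starts the
law after two rings is at least `(κ / 2) / √m` at each of these `b`, at least `√m / 2` in number. -/
def S_CEX : Prop := ∃ (δ : ℝ) (m0 : ℕ), 0 < δ ∧ δ ≤ 1 ∧ ∀ m : ℕ, m0 ≤ m →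
  Mix mu2 (2 * m) m 2 (2 * (1 - δ))

/-! ### The final statements -/

/-- cutoff around `T` -/
def CutoffAround (tm : ℕ → ℝ → ℝ) (T : ℕ → ℝ) : Prop :=
  ∀ ε : ℝ, 0 < ε → ε < 1 → Tendsto (fun n => tm n ε / T n) atTop (𝓝 1)

/-- cutoff -/
def Cutoff (tm : ℕ → ℝ → ℝ) : Prop :=
  ∀ ε : ℝ, 0 < ε → ε < 1 → Tendsto (fun n => tm n ε / tm n (1 - ε)) atTop (𝓝 1)

/-- **FINA** (cutoff; may assume `S_UPS`, `S_LOW`, `S_TYP`, `S_LYA`, `S_FWB`, `S_CTU`, `S_CTL`, `S_PTL`,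
`S_PNR`). -/
def S_FINA : Prop := ∀ (d : ℕ) (μ : Equiv.Perm (Fin d) → ℝ) (l : ℝ), 2 ≤ d → Pr μ → Irr μ → 0 < l →
  l < 1 → Inve μ l → ∃ θ : ℝ, 0 < θ ∧ Expo μ l θ ∧ ∀ (C0 : ℝ) (k : ℕ → ℕ),
    (∀ n : ℕ, |(k n : ℝ) - l * n| ≤ C0) → ∀ π : ∀ n : ℕ, St d n → ℝ,
      (∀ n, Stationary μ (k n) (π n)) →
        CutoffAround (fun n ε => tmix μ (k n) (π n) ε) (fun n => Real.log n / (2 * θ))

/-- **FINB** (order `log n`; may assume `S_UPO`, `S_LOW`, `S_TYP`, `S_FWB`, `S_CTU`, `S_CTL`, `S_PTL`,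
`S_PNR`). Upper bound: UPO, CTU, PTL with `N ≥ K log n`. Lower bound: `nf2 (ms l σ B) ≥ (1 - 2 l) ^ 2 nf2 B`,
so `fw (k / n) w ≥ c ^ N ≥ n ^ (-1/4)` for all lists `w` of length `N ≤ κ log n`; LOW with `δ = 1/4`, TYP, CTL,
PTL. -/
def S_FINB : Prop := ∀ (d : ℕ) (μ : Equiv.Perm (Fin d) → ℝ), 2 ≤ d → Pr μ → Irr μ → ∀ c : ℝ, 0 < c →
  ∃ K κ : ℝ, 0 < K ∧ 0 < κ ∧ ∀ k : ℕ → ℕ,
    (∀ᶠ n : ℕ in atTop, c * n ≤ k n ∧ (k n : ℝ) ≤ (1 - c) * n) →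
    ∀ π : ∀ n : ℕ, St d n → ℝ, (∀ n, Stationary μ (k n) (π n)) → ∀ ε : ℝ, 0 < ε → ε < 1 →
      (∀ᶠ n : ℕ in atTop, tmix μ (k n) (π n) ε ≤ K * Real.log n) ∧
      ((∀ᶠ n : ℕ in atTop, c * n ≤ |2 * (k n : ℝ) - n|) →
        ∀ᶠ n : ℕ in atTop, κ * Real.log n ≤ tmix μ (k n) (π n) ε)

/-- The assertion of Q2. -/
def Q2 : Prop := ∀ (d : ℕ) (μ : Equiv.Perm (Fin d) → ℝ), 2 ≤ d → Pr μ → Irr μ → ∀ c : ℝ, 0 < c →
  c < 1 / 2 → ∀ k : ℕ → ℕ, (∀ᶠ n : ℕ in atTop, c * n ≤ k n ∧ (k n : ℝ) ≤ (1 - c) * n) →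
    ∀ π : ∀ n : ℕ, St d n → ℝ, (∀ n, Stationary μ (k n) (π n)) →
      Cutoff (fun n ε => tmix μ (k n) (π n) ε) ∧
      ∃ K κ : ℝ, 0 < K ∧ 0 < κ ∧ ∀ᶠ n : ℕ in atTop,
        κ * Real.log n ≤ tmix μ (k n) (π n) (1 / 4) ∧ tmix μ (k n) (π n) (1 / 4) ≤ K * Real.log n

/-- **EXS** (a stationary distribution exists). `ring μ k` is a stochastic matrix (`∑ B, ring μ k A B = 1`:
every choice leads to exactly one state); a cluster point of the Cesaro means of `x V ^ j` in the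
compact `stdSimplex` is stationary. -/
def S_EXS : Prop := ∀ (d n k : ℕ) (μ : Equiv.Perm (Fin d) → ℝ), Pr μ → k ≤ n →
  ∃ π : St d n → ℝ, Stationary μ k π

/-- **FINC** (the counterexample; may assume `S_CEX`, `S_ITR`, `S_CTU`, `S_PNR`, `S_REP`, `S_BRI`).
`d = 2`,
`μ = mu2`, `k n = n / 2`. By CEX (and EXS), ITR, CTU: `dn (2 m) t ≤ (1 - δ) ^ N + ∑ j ∈ range (2 N), pois t j` for
all `N`, so for every `ε` the mixing times along even `n` are bounded. No cutoff: for small `ε`, `tmix ε`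
is at least `log (1 / (2 ε))` for large `n` (the state space has `n + 1` elements; start at a state with
`π A ≤ 1 / (n + 1)`: no ring with probability `exp (-t)`), and `tmix (1 - ε) ≤ tmix (1 / 2)` is bounded
along even `n`. -/
def S_FINC : Prop :=
  ∀ π : ∀ n : ℕ, St 2 n → ℝ, (∀ n, Stationary mu2 (n / 2) (π n)) →
    (∀ ε : ℝ, 0 < ε → ∃ (T : ℝ) (m0 : ℕ), ∀ m : ℕ, m0 ≤ m →
      tmix mu2 (2 * m / 2) (π (2 * m)) ε ≤ T) ∧
    ¬ Cutoff (fun n ε => tmix mu2 (n / 2) (π n) ε)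

end Pool.Agent.L7h38.UC
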