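import Pool.Agent.L7h38.UC.All

/-!
# Project UC: the distance is small after time `K log n`, and bounded times in the counterexample
-/

set_option autoImplicit false

namespace Pool.Agent.L7h38.UC.All

open Finset Filter Topology Pool.Agent.L7h38.UC

/-- the distance at all times `t ≥ K log n` -/
theorem dn_up (d : ℕ) (μ : Equiv.Perm (Fin d) → ℝ) (hμ : Pr μ) (hI : Irr μ) (c : ℝ) (hc : 0 < c) :
    ∃ K : ℝ, 0 < K ∧ ∀ k : ℕ → ℕ,
      (∀ᶠ n : ℕ in atTop, c * n ≤ k n ∧ (k n : ℝ) ≤ (1 - c) * n) →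
      ∀ π : ∀ n : ℕ, St d n → ℝ, (∀ n, Stationary μ (k n) (π n)) → ∀ ε : ℝ, 0 < ε →
        ∀ᶠ n : ℕ in atTop, ∀ t : ℝ, K * Real.log n ≤ t → dn μ (k n) (π n) t ≤ ε := by
  obtain ⟨C, ρ, hC, hρ, hρ1, hM⟩ := UPO d μ hμ hI c hc
  have hlρ : 0 < -Real.log ρ := by
    have := Real.log_neg hρ hρ1
    linarith
  obtain ⟨K0, hK0⟩ : ∃ K0, K0 = 2 / (-Real.log ρ) := ⟨_, rfl⟩
  have hK0p : 0 < K0 := by rw [hK0]; positivity
  have hlρne : Real.log ρ ≠ 0 := by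
    intro h
    rw [h] at hlρ
    simp at hlρ
  refine ⟨4 * K0, by positivity, ?_⟩
  intro k hk π hπ ε hε
  have hlogn : Tendsto (fun n : ℕ => Real.log (n : ℝ)) atTop atTop :=
    Real.tendsto_log_atTop.comp tendsto_natCast_atTop_atTop
  obtain ⟨X, hX, hP⟩ := PTL 1 (ε / 2) one_pos (by linarith)
  have e1 : ∀ᶠ n : ℕ in atTop, max X 1 ≤ K0 * Real.log n :=
    (hlogn.const_mul_atTop hK0p).eventually_ge_atTop _
  have e2 : ∀ᶠ n : ℕ in atTop, C / ε ≤ (n : ℝ) :=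
    tendsto_natCast_atTop_atTop.eventually_ge_atTop _
  filter_upwards [hk, e1, e2, eventually_ge_atTop 1] with n hkn h1 h2 h3
  intro t ht
  have hn : (1 : ℝ) ≤ n := by exact_mod_cast h3
  have hl0 : 0 ≤ Real.log n := Real.log_nonneg hn
  have hkn' : k n ≤ n := by
    have : (k n : ℝ) ≤ n := by nlinarith [hkn.2]
    exact_mod_cast this
  have g0 : 0 ≤ 4 * K0 * Real.log n := by positivity
  obtain ⟨N, hN⟩ : ∃ N, N = ⌈K0 * Real.log n⌉₊ := ⟨_, rfl⟩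
  have hN1 : K0 * Real.log n ≤ N := by rw [hN]; exact Nat.le_ceil _
  have hN2 : (N : ℝ) ≤ K0 * Real.log n + 1 := by
    rw [hN]; exact (Nat.ceil_lt_add_one (by positivity)).le
  have hmix := hM n (k n) N h3 hkn.1 hkn.2
  have g1 := CTU d n (k n) μ hμ hkn' N _ hmix (π n) (hπ n) t (g0.trans ht)
  have g2 := (hP (K0 * Real.log n + 1) (by linarith [le_max_left X 1]) N).1 hN2
    t (by nlinarith [le_max_right X 1])
  have g3 : C * n * ρ ^ N ≤ ε := by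
    have e3 : ρ ^ N = Real.exp (N * Real.log ρ) := by
      rw [Real.exp_nat_mul, Real.exp_log hρ]
    have e4 : (N : ℝ) * Real.log ρ ≤ -(2 * Real.log n) := by
      have e5 : K0 * Real.log n * (-Real.log ρ) ≤ N * (-Real.log ρ) :=
        mul_le_mul_of_nonneg_right hN1 hlρ.le
      have e6 : K0 * Real.log n * (-Real.log ρ) = 2 * Real.log n := by
        rw [hK0]
        field_simp
      linarith
    have e7 : ρ ^ N ≤ 1 / (n : ℝ) ^ 2 := by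
      rw [e3]
      refine (Real.exp_le_exp.2 e4).trans ?_
      rw [Real.exp_neg, two_mul, Real.exp_add, Real.exp_log (by linarith)]
      rw [one_div, sq]
    have e8 : C ≤ ε * n := by
      rw [div_le_iff₀ hε] at h2
      linarith
    calc C * n * ρ ^ N ≤ C * n * (1 / (n : ℝ) ^ 2) :=
          mul_le_mul_of_nonneg_left e7 (by positivity)
      _ = C / n := by field_simp
      _ ≤ ε := by
          rw [div_le_iff₀ (by linarith)]
          exact e8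
  linarith

/-- order `log n`, with the distance -/
theorem FINB2 (d : ℕ) (μ : Equiv.Perm (Fin d) → ℝ) (hd : 2 ≤ d) (hμ : Pr μ) (hI : Irr μ) (c : ℝ)
    (hc : 0 < c) : ∃ K κ : ℝ, 0 < K ∧ 0 < κ ∧ ∀ k : ℕ → ℕ,
      (∀ᶠ n : ℕ in atTop, c * n ≤ k n ∧ (k n : ℝ) ≤ (1 - c) * n) →
      ∀ π : ∀ n : ℕ, St d n → ℝ, (∀ n, Stationary μ (k n) (π n)) → ∀ ε : ℝ, 0 < ε → ε < 1 →
        (∀ᶠ n : ℕ in atTop, (∀ t : ℝ, K * Real.log n ≤ t → dn μ (k n) (π n) t ≤ ε) ∧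
          tmix μ (k n) (π n) ε ≤ K * Real.log n) ∧
        ((∀ᶠ n : ℕ in atTop, c * n ≤ |2 * (k n : ℝ) - n|) →
          ∀ᶠ n : ℕ in atTop, κ * Real.log n ≤ tmix μ (k n) (π n) ε) := by
  obtain ⟨K1, hK1, h1⟩ := dn_up d μ hμ hI c hc
  obtain ⟨K2, κ, hK2, hκ, h2⟩ := FINB d μ hd hμ hI c hc
  refine ⟨max K1 K2, κ, lt_max_of_lt_left hK1, hκ, ?_⟩
  intro k hk π hπ ε hε hε1
  obtain ⟨h3, h4⟩ := h2 k hk π hπ ε hε hε1
  refine ⟨?_, h4⟩
  filter_upwards [h1 k hk π hπ ε hε, h3, eventually_ge_atTop 1] with n h5 h6 h7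
  have hn : (1 : ℝ) ≤ n := by exact_mod_cast h7
  have hl0 : 0 ≤ Real.log n := Real.log_nonneg hn
  refine ⟨fun t ht => h5 t ((mul_le_mul_of_nonneg_right (le_max_left _ _) hl0).trans ht),
    h6.trans (mul_le_mul_of_nonneg_right (le_max_right _ _) hl0)⟩

/-- the counterexample, with the distance -/
theorem FINC2 (π : ∀ n : ℕ, St 2 n → ℝ) (hπ : ∀ n, Stationary mu2 (n / 2) (π n)) :
    (∀ ε : ℝ, 0 < ε → ∃ (T : ℝ) (m0 : ℕ), 0 ≤ T ∧ ∀ m : ℕ, m0 ≤ m →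
      dn mu2 (2 * m / 2) (π (2 * m)) T ≤ ε ∧ tmix mu2 (2 * m / 2) (π (2 * m)) ε ≤ T) ∧
    ¬ Cutoff (fun n ε => tmix mu2 (n / 2) (π n) ε) := by
  refine ⟨fun ε hε => ?_, (FINC π hπ).2⟩
  obtain ⟨T, m0, hT, h⟩ := Pool.Agent.L7h96.UC.bounded_dn CEX ITR CTU π hπ ε hε
  exact ⟨T, m0, hT, fun m hm => ⟨h m hm, Pool.Agent.L7h96.UC.tmix_le _ _ _ _ _ hT (h m hm)⟩⟩

end Pool.Agent.L7h38.UC.All
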