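import Pool.Agent.L7h38.UC.UpsA

/-!
# Project UC, part UPS: asymptotics
-/

set_option autoImplicit false

namespace Pool.Agent.L7h38.UC

open Finset Filter Topology

variable {d : ℕ}

/-! ### Asymptotics -/

theorem tend_log : Tendsto (fun n : ℕ => Real.log n) atTop atTop :=
  Real.tendsto_log_atTop.comp tendsto_natCast_atTop_atTop

theorem tend_log_div_sqrt : Tendsto (fun n : ℕ => Real.log n / Real.sqrt n) atTop (𝓝 0) := by
  have h1 : Tendsto (fun x : ℝ => Real.log x / x ^ (1 / 2 : ℝ)) atTop (𝓝 0) :=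
    (isLittleO_log_rpow_atTop (by norm_num)).tendsto_div_nhds_zero
  have h2 := h1.comp tendsto_natCast_atTop_atTop
  refine h2.congr fun n => ?_
  simp only [Function.comp]
  rw [Real.sqrt_eq_rpow]

theorem s_UPS (hC : S_CON) (hQ : S_QN) (hR : S_RCH) (hD : S_DIS) (hM : S_MOM) (hP : S_PWB)
    (hS : S_SMO) (hF : S_FWB) (hN : S_PNR) : S_UPS := by
  classical
  intro d μ l θ hd hμ hI hl0 hl1 hθ hup C0 k hk ε η hε hη
  obtain ⟨c0, hc0⟩ : ∃ c0 : ℝ, c0 = min l (1 - l) / 2 := ⟨_, rfl⟩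
  have hc00 : 0 < c0 := by
    have : 0 < min l (1 - l) := lt_min hl0 (by linarith)
    rw [hc0]
    positivity
  have hc01 : c0 < l := by
    have := min_le_left l (1 - l)
    linarith
  have hc02 : c0 < 1 - l := by
    have h1 := min_le_right l (1 - l)
    linarith
  clear hc0
  obtain ⟨Cq, ρ, hCq, hρ0, hρ1, hq⟩ := hQ d μ hμ hI c0 hc00
  obtain ⟨Cr, ρr, hCr, hρr0, hρr1, hr⟩ := hR d μ hμ hI
  obtain ⟨Cs, hCs, hs⟩ := hS d hd c0 hc00
  have hd' : (2 : ℝ) ≤ d := by exact_mod_cast hd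
  obtain ⟨δ, hδ⟩ : ∃ δ : ℝ, δ = ε / (8 * θ) := ⟨_, rfl⟩
  have hδ0 : 0 < δ := by
    rw [hδ]
    positivity
  obtain ⟨K, hK⟩ : ∃ K : ℝ, K = (1 + ε) / (2 * θ) := ⟨_, rfl⟩
  have hK0 : 0 < K := by
    rw [hK]
    positivity
  obtain ⟨e', he'⟩ : ∃ e' : ℝ, e' = θ * (ε / 2) / (1 + ε / 2) := ⟨_, rfl⟩
  have he'0 : 0 < e' := by
    rw [he']
    positivity
  have he'1 : (θ - e') * (1 + ε / 2) = θ := by
    rw [he']
    field_simp
    ring
  obtain ⟨N2, hN2d⟩ : ∃ N2 : ℕ → ℕ, N2 = fun n : ℕ => ⌊δ * Real.log (n : ℝ)⌋₊ := ⟨_, rfl⟩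
  obtain ⟨M, hMd⟩ : ∃ M : ℕ → ℕ, M = fun n : ℕ => ⌈(1 + ε) * Real.log (n : ℝ) / (2 * θ)⌉₊ := ⟨_, rfl⟩
  obtain ⟨N1, hN1d⟩ : ∃ N1 : ℕ → ℕ, N1 = fun n => M n - (N2 n + N2 n) := ⟨_, rfl⟩
  have hN2 : Tendsto N2 atTop atTop := by
    rw [hN2d]
    exact tendsto_nat_floor_atTop.comp (tend_log.const_mul_atTop hδ0)
  -- the inequality for N1
  have hx : ∀ᶠ n : ℕ in atTop, 1 ≤ Real.log n := tend_log.eventually_ge_atTop 1
  have hMle : ∀ n : ℕ, 0 ≤ Real.log n → (M n : ℝ) ≤ K * Real.log n + 1 := by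
    intro n h0
    have h1 : (0 : ℝ) ≤ (1 + ε) * Real.log n / (2 * θ) := by positivity
    have h2 := (Nat.ceil_lt_add_one h1).le
    rw [hMd]
    calc ((⌈(1 + ε) * Real.log n / (2 * θ)⌉₊ : ℕ) : ℝ) ≤ (1 + ε) * Real.log n / (2 * θ) + 1 := h2
      _ = K * Real.log n + 1 := by
        rw [hK]
        ring
  have hMge : ∀ n : ℕ, K * Real.log n ≤ M n := by
    intro n
    calc K * Real.log n = (1 + ε) * Real.log n / (2 * θ) := by
          rw [hK]
          ring
      _ ≤ M n := by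
          rw [hMd]
          exact Nat.le_ceil _
  have hN2le : ∀ n : ℕ, 0 ≤ Real.log n → (N2 n : ℝ) ≤ δ * Real.log n := fun n h0 => by
    rw [hN2d]
    exact Nat.floor_le (by positivity)
  have hKδ : K - 2 * δ = (1 + ε / 2) / (2 * θ) := by
    rw [hK, hδ]
    field_simp
    ring
  have hsplit : ∀ n : ℕ, 0 ≤ Real.log n → M n = N1 n + (N2 n + N2 n) := by
    intro n h0
    have h1 : ((N2 n + N2 n : ℕ) : ℝ) ≤ M n := by
      push_cast
      have := hN2le n h0
      have := hMge n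
      have h3 : 0 ≤ (K - 2 * δ) * Real.log n := by
        rw [hKδ]
        positivity
      linarith
    have h2 : N2 n + N2 n ≤ M n := by exact_mod_cast h1
    have h3 : N1 n = M n - (N2 n + N2 n) := by rw [hN1d]
    omega
  have hN1ge : ∀ n : ℕ, 0 ≤ Real.log n → (1 + ε / 2) / (2 * θ) * Real.log n ≤ N1 n := by
    intro n h0
    have h1 := hsplit n h0
    have h2 : (M n : ℝ) = N1 n + (N2 n + N2 n) := by exact_mod_cast h1
    have := hN2le n h0
    have := hMge n
    have h3 : (1 + ε / 2) / (2 * θ) * Real.log n = (K - 2 * δ) * Real.log n := by rw [hKδ]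
    rw [h3]
    linarith
  have hN1 : Tendsto N1 atTop atTop := by
    have h1 : Tendsto (fun n : ℕ => (1 + ε / 2) / (2 * θ) * Real.log n) atTop atTop :=
      tend_log.const_mul_atTop (by positivity)
    have h2 : Tendsto (fun n : ℕ => (N1 n : ℝ)) atTop atTop := by
      refine tendsto_atTop_mono' atTop ?_ h1
      filter_upwards [hx] with n hn
      exact hN1ge n (by linarith)
    exact tendsto_natCast_atTop_iff.1 h2
  -- limits
  have hP1 : Tendsto (fun n : ℕ => EW μ (N1 n)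
      (fun w => if Real.exp (-(θ - e') * (N1 n : ℕ)) < fw l w then 1 else 0)) atTop (𝓝 0) :=
    (hup e' he'0).comp hN1
  have hP3 : Tendsto (fun n : ℕ => Cr * ρr ^ (N2 n)) atTop (𝓝 0) := by
    have := (tendsto_pow_atTop_nhds_zero_of_lt_one hρr0.le hρr1).comp hN2
    simpa using this.const_mul Cr
  obtain ⟨K', hK'⟩ : ∃ K' : ℝ, K' = K / δ + K + 2 := ⟨_, rfl⟩
  have hK'0 : 0 < K' := by
    rw [hK']
    positivity
  have hMN : ∀ n : ℕ, 1 ≤ Real.log n → (M n : ℝ) + 1 ≤ K' * ((N2 n : ℝ) + 1) := by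
    intro n h1
    have h2 : δ * Real.log n < N2 n + 1 := by
      rw [hN2d]
      exact Nat.lt_floor_add_one _
    have h3 := hMle n (by linarith)
    have h5 : (0 : ℝ) ≤ N2 n := Nat.cast_nonneg _
    have h4 : K * Real.log n ≤ K / δ * ((N2 n : ℝ) + 1) := by
      calc K * Real.log n = K / δ * (δ * Real.log n) := by
            field_simp
        _ ≤ K / δ * ((N2 n : ℝ) + 1) := mul_le_mul_of_nonneg_left h2.le (by positivity)
    have h6 : 0 ≤ K * (N2 n : ℝ) := by positivity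
    rw [hK']
    linarith
  have hP2 : Tendsto (fun n : ℕ => ((N2 n : ℝ) + 1) ^ 3 * ρ ^ (N2 n)) atTop (𝓝 0) := by
    have h1 : Tendsto (fun m : ℕ => ((m : ℝ) + 1) ^ 3 * ρ ^ m) atTop (𝓝 0) := by
      have h2 := tendsto_pow_const_mul_const_pow_of_abs_lt_one 3 (r := ρ) (by
        rw [abs_of_pos hρ0]
        exact hρ1)
      have h3 := (tendsto_add_atTop_iff_nat 1).2 h2
      have h4 := h3.const_mul (1 / ρ)
      rw [mul_zero] at h4
      refine h4.congr fun m => ?_
      push_cast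
      rw [pow_succ ρ m]
      field_simp
    exact h1.comp hN2
  have hPs : Tendsto (fun n : ℕ => (K * Real.log n + 2) / Real.sqrt n) atTop (𝓝 0) := by
    have h1 := tend_log_div_sqrt.const_mul K
    have h2 : Tendsto (fun n : ℕ => (2 : ℝ) / Real.sqrt n) atTop (𝓝 0) := by
      have h3 : Tendsto (fun n : ℕ => Real.sqrt n) atTop atTop :=
        Real.tendsto_sqrt_atTop.comp tendsto_natCast_atTop_atTop
      exact h3.const_div_atTop 2
    have h4 := h1.add h2
    rw [mul_zero, add_zero] at h4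
    refine h4.congr fun n => ?_
    ring
  obtain ⟨A3, hA3⟩ : ∃ A3 : ℝ, A3 = 4 * d ^ 2 * (16 * d + Cs) * K' ^ 3 * (d ^ 2 * Cq) := ⟨_, rfl⟩
  have hA30 : 0 ≤ A3 := by
    rw [hA3]
    positivity
  -- the eventual inequalities
  have ev1 := (tendsto_order.1 hP1).2 (η / 8) (by positivity)
  have ev2 := (tendsto_order.1 hP3).2 (η / 8) (by positivity)
  have ev3 := (tendsto_order.1 (hP2.const_mul A3)).2 (η / 4) (by rw [mul_zero]; positivity)
  have ev4 := (tendsto_order.1 (hPs.const_mul (2 * 1024 * (d : ℝ) ^ 6))).2 (η / 4)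
    (by rw [mul_zero]; positivity)
  have ev5 := (tendsto_order.1 (hPs.const_mul (2 * (d : ℝ) * (|C0| + 1)))).2 1
    (by rw [mul_zero]; exact one_pos)
  have ev6 : ∀ᶠ n : ℕ in atTop, |C0| / n < min (l - c0) (1 - c0 - l) := by
    have h1 : Tendsto (fun n : ℕ => |C0| / (n : ℝ)) atTop (𝓝 0) :=
      tendsto_natCast_atTop_atTop.const_div_atTop _
    exact (tendsto_order.1 h1).2 _ (lt_min (by linarith) (by linarith))
  filter_upwards [ev1, ev2, ev3, ev4, ev5, ev6, hx, eventually_ge_atTop 1] with n h1 h2 h3 h4 h5 h6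
    h7 hn N hNN
  have hn' : (1 : ℝ) ≤ n := by exact_mod_cast hn
  have hn0 : (0 : ℝ) < n := by linarith
  have hsq : (0 : ℝ) < Real.sqrt n := Real.sqrt_pos.2 hn0
  have hsq1 : (1 : ℝ) ≤ Real.sqrt n := by
    rw [Real.one_le_sqrt]
    exact hn'
  have hsqq : Real.sqrt n * Real.sqrt n = n := Real.mul_self_sqrt hn0.le
  have hsqn : Real.sqrt n ≤ n := by nlinarith
  obtain ⟨ln, hln⟩ : ∃ ln : ℝ, ln = (k n : ℝ) / n := ⟨_, rfl⟩
  have hdist : |ln - l| ≤ |C0| / n := by
    have : ln - l = ((k n : ℝ) - l * n) / n := by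
      rw [hln]
      field_simp
    rw [this, abs_div, abs_of_pos hn0]
    exact div_le_div_of_nonneg_right ((hk n).trans (le_abs_self _)) hn0.le
  have hdist' := (abs_le.1 (hdist.trans h6.le))
  have hlc : c0 ≤ ln := by
    have := min_le_left (l - c0) (1 - c0 - l)
    linarith [hdist'.1]
  have hlc' : ln ≤ 1 - c0 := by
    have := min_le_right (l - c0) (1 - c0 - l)
    linarith [hdist'.2]
  have hkn1 : c0 * n ≤ k n := by
    rw [hln, le_div_iff₀ hn0] at hlc
    exact hlc
  have hkn2 : (k n : ℝ) ≤ (1 - c0) * n := by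
    rw [hln, div_le_iff₀ hn0] at hlc'
    exact hlc'
  have hkn : k n ≤ n := by
    have : (k n : ℝ) ≤ n := by nlinarith
    exact_mod_cast this
  have hMN' : M n ≤ N := by
    rw [hMd]
    exact Nat.ceil_le.2 hNN
  refine hN.2.2.2.2.2 d n (k n) μ hμ (M n) N η ?_ hMN'
  have hmix := ups_avg hC hD hM hP hF hd hμ hCs hn hkn
    (hs n (k n) hn hkn1 hkn2) (N1 n) (N2 n) (N2 n) (M n) (hsplit n (by linarith))
  intro F hF1 c c' hc hc'
  refine (hmix F hF1 c c' hc hc').trans ?_
  rw [← hln]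
  -- first term
  have t1 : EW μ (N1 n) (fun w => if 2 / Real.sqrt n < fw ln w then 1 else 0) ≤ η / 8 := by
    refine le_trans ?_ h1.le
    refine EW_mono hμ.1 _ _ _ fun w hw => ?_
    by_cases hb : 2 / Real.sqrt n < fw ln w
    · have g1 := (hF d (by omega)).2.2.2.2 ln l (by linarith) (by linarith) hl0.le hl1.le w
      have g2 : 2 * (d : ℝ) * w.length * |ln - l| ≤ 1 / Real.sqrt n := by
        have g3 : (w.length : ℝ) ≤ K * Real.log n + 2 := by
          rw [hw]
          have g4 : (N1 n : ℝ) ≤ M n := by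
            rw [hN1d]
            exact_mod_cast Nat.sub_le _ _
          have := hMle n (by linarith)
          linarith
        have g5 : |ln - l| ≤ (|C0| + 1) / n := by
          refine hdist.trans ?_
          gcongr
          linarith
        calc 2 * (d : ℝ) * w.length * |ln - l| ≤
            2 * d * (K * Real.log n + 2) * ((|C0| + 1) / n) := by
              have : (0 : ℝ) ≤ K * Real.log n + 2 := by positivity
              gcongr
          _ = (2 * d * (|C0| + 1) * (K * Real.log n + 2)) / (Real.sqrt n * Real.sqrt n) := by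
              rw [hsqq]
              ring
          _ = (2 * d * (|C0| + 1) * ((K * Real.log n + 2) / Real.sqrt n)) / Real.sqrt n := by
              ring
          _ ≤ 1 / Real.sqrt n := div_le_div_of_nonneg_right h5.le hsq.le
      have g6 : 1 / Real.sqrt n < fw l w := by
        have := (abs_le.1 g1).2
        have g7 : 2 / Real.sqrt n = 1 / Real.sqrt n + 1 / Real.sqrt n := by ring
        linarith
      have g8 : Real.exp (-(θ - e') * (N1 n : ℕ)) ≤ 1 / Real.sqrt n := by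
        have g9 : 1 / Real.sqrt n = Real.exp (-(Real.log n / 2)) := by
          rw [Real.exp_neg, Real.exp_half, Real.exp_log hn0, one_div]
        rw [g9]
        apply Real.exp_le_exp.2
        have g10 := hN1ge n (by linarith)
        have g11 : 0 < θ - e' := by
          by_contra hcon
          push Not at hcon
          have : (θ - e') * (1 + ε / 2) ≤ 0 := mul_nonpos_of_nonpos_of_nonneg hcon (by positivity)
          linarith
        have g12 : Real.log n / 2 ≤ (θ - e') * (N1 n : ℕ) := by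
          calc Real.log n / 2 = (θ - e') * ((1 + ε / 2) / (2 * θ) * Real.log n) := by
                have : (θ - e') * ((1 + ε / 2) / (2 * θ) * Real.log n) =
                    ((θ - e') * (1 + ε / 2)) / (2 * θ) * Real.log n := by ring
                rw [this, he'1]
                field_simp
            _ ≤ _ := mul_le_mul_of_nonneg_left g10 g11.le
        linarith
      rw [if_pos hb, if_pos (lt_of_le_of_lt g8 g6)]
    · rw [if_neg hb]
      split_ifs <;> norm_num
  have t3 : EW μ (N2 n) (fun w => if ∀ x y, reach w x y then 0 else 1) ≤ η / 8 :=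
    (hr (N2 n)).trans h2.le
  have hM1 : (M n : ℝ) + 1 ≤ K * Real.log n + 2 := by
    have := hMle n (by linarith)
    linarith
  have t4 : 2 * (1024 * (d : ℝ) ^ 6 * ((M n : ℝ) + 1) / n) ≤ η / 4 := by
    refine le_trans ?_ h4.le
    calc 2 * (1024 * (d : ℝ) ^ 6 * ((M n : ℝ) + 1) / n) ≤
        2 * (1024 * (d : ℝ) ^ 6 * (K * Real.log n + 2) / Real.sqrt n) := by
          have : (0 : ℝ) ≤ K * Real.log n + 2 := by positivity
          gcongr
      _ = _ := by ring
  have t5 : (4 * (d : ℝ) ^ 2 * (16 * d + Cs) * ((M n : ℝ) + 1) ^ 3) *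
      ∑ i : Fin d, ∑ i' : Fin d, EW μ (N2 n) (fun w => QW ln w off i i') ≤ η / 4 := by
    have g1 : ∑ i : Fin d, ∑ i' : Fin d, EW μ (N2 n) (fun w => QW ln w off i i') ≤
        d ^ 2 * Cq * ρ ^ (N2 n) := by
      calc _ ≤ ∑ _i : Fin d, ∑ _i' : Fin d, Cq * ρ ^ (N2 n) :=
            Finset.sum_le_sum fun i _ => Finset.sum_le_sum fun i' _ => hq ln hlc hlc' (N2 n) i i'
        _ = _ := by
          simp
          ring
    have g2 := hMN n h7
    have g3 : ((M n : ℝ) + 1) ^ 3 ≤ (K' * ((N2 n : ℝ) + 1)) ^ 3 :=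
      pow_le_pow_left₀ (by positivity) g2 3
    calc _ ≤ (4 * (d : ℝ) ^ 2 * (16 * d + Cs) * ((M n : ℝ) + 1) ^ 3) *
          (d ^ 2 * Cq * ρ ^ (N2 n)) := mul_le_mul_of_nonneg_left g1 (by positivity)
      _ ≤ (4 * (d : ℝ) ^ 2 * (16 * d + Cs) * (K' * ((N2 n : ℝ) + 1)) ^ 3) *
          (d ^ 2 * Cq * ρ ^ (N2 n)) := by
            refine mul_le_mul_of_nonneg_right ?_ (by positivity)
            exact mul_le_mul_of_nonneg_left g3 (by positivity)
      _ = A3 * (((N2 n : ℝ) + 1) ^ 3 * ρ ^ (N2 n)) := by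
          rw [hA3]
          ring
      _ ≤ η / 4 := h3.le
  linarith

end Pool.Agent.L7h38.UC
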