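import Pool.Agent.L7h38.UC.Det
import Pool.Agent.L7h38.UC.Stm2

/-!
# Project UC, part UPS: the sharp upper bound
-/

set_option autoImplicit false

namespace Pool.Agent.L7h38.UC

open Finset Filter Topology

variable {d : ℕ}

theorem ups_avg (hC : S_CON) (hD : S_DIS) (hM : S_MOM) (hP : S_PWB) (hF : S_FWB) (hd : 2 ≤ d)
    {μ : Equiv.Perm (Fin d) → ℝ} (hμ : Pr μ) {Cs : ℝ} (hCs : 0 < Cs) {n k : ℕ} (hn : 1 ≤ n)
    (hk : k ≤ n)
    (hS : ∀ (w : List (Equiv.Perm (Fin d))) (F : Mt d → ℝ), (∀ A, |F A| ≤ 1) →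
      ∀ (c c' : Cf d n) (i i' a b : Fin d), Bal c → Bal c' →
      cn c' = shift (cn c) a b i i' → reach w i' i →
      nf2 (fun x y => rl (cn c) x y - n / d) ≤ (n / (4 * d)) ^ 2 →
      |PW n k w F (cn c') - PW n k w F (cn c)| ≤ Cs * (w.length + 1) ^ 2 / Real.sqrt n)
    (N1 N2 N3 M : ℕ) (hM1 : M = N1 + (N2 + N3)) :
    Mix μ n k M (2 * EW μ N1 (fun w => if 2 / Real.sqrt n < fw ((k : ℝ) / n) w then 1 else 0) +
      2 * EW μ N3 (fun w => open Classical in if ∀ x y, reach w x y then 0 else 1) +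
      2 * (1024 * d ^ 6 * (M + 1) / n) + (4 * d ^ 2 * (16 * d + Cs) * (M + 1) ^ 3) *
        ∑ i, ∑ i', EW μ N2 (fun w => QW ((k : ℝ) / n) w off i i')) := by
  classical
  intro F hF1 c c' hc hc'
  have hn' : (1 : ℝ) ≤ n := by exact_mod_cast hn
  have hn0 : (0 : ℝ) < n := by linarith
  have hl1 : (k : ℝ) / n ≤ 1 := by
    rw [div_le_one hn0]
    exact_mod_cast hk
  have hl0 : (0 : ℝ) ≤ (k : ℝ) / n := by positivity
  unfold PN
  rw [← EW_sub]
  refine (EW_abs hμ.1 _ _).trans ?_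
  rw [hM1, EW_app, ]
  set E1 : ℝ := 2 * (1024 * d ^ 6 * ((N1 + (N2 + N3) : ℕ) + 1) / n) with hE1
  set E2 : ℝ := 4 * d ^ 2 * (16 * d + Cs) * ((N1 + (N2 + N3) : ℕ) + 1) ^ 3 with hE2
  have hE10 : 0 ≤ E1 := by positivity
  have hE20 : 0 ≤ E2 := by positivity
  have step : ∀ w1 w2 w3 : List (Equiv.Perm (Fin d)), w1.length = N1 → w2.length = N2 →
      w3.length = N3 →
      |PW n k (w1 ++ (w2 ++ w3)) F (cn c) - PW n k (w1 ++ (w2 ++ w3)) F (cn c')| ≤
        2 * (if 2 / Real.sqrt n < fw ((k : ℝ) / n) w1 then 1 else 0) +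
        (2 * (if ∀ x y, reach w3 x y then 0 else 1) + (E1 +
        E2 * ∑ i, ∑ i', QW ((k : ℝ) / n) w2 off i i')) := by
    intro w1 w2 w3 h1 h2 h3
    have hS0 : 0 ≤ ∑ i, ∑ i', QW ((k : ℝ) / n) w2 (off (d := d)) i i' :=
      Finset.sum_nonneg fun i _ => Finset.sum_nonneg fun i' _ =>
        QW_nonneg hl0 hl1 w2 _ off_nonneg i i'
    have htriv : |PW n k (w1 ++ (w2 ++ w3)) F (cn c) - PW n k (w1 ++ (w2 ++ w3)) F (cn c')| ≤ 2 := by
      have e1 := hP.2.2.2.1 d n k (w1 ++ (w2 ++ w3)) F 1 hF1 (cn c)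
      have e2 := hP.2.2.2.1 d n k (w1 ++ (w2 ++ w3)) F 1 hF1 (cn c')
      refine (abs_sub _ _).trans ?_
      linarith
    have hQ : 0 ≤ E1 + E2 * ∑ i, ∑ i', QW ((k : ℝ) / n) w2 (off (d := d)) i i' := by positivity
    by_cases hb1 : 2 / Real.sqrt n < fw ((k : ℝ) / n) w1
    · rw [if_pos hb1]
      have : (0 : ℝ) ≤ (if ∀ x y, reach w3 x y then 0 else 1) := by split_ifs <;> norm_num
      linarith
    by_cases hb3 : ∀ x y, reach w3 x y
    · rw [if_neg hb1, if_pos hb3]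
      have h := det hC hD hM hP hF hd hCs hn hk (w1 := w1) (w2 := w2) (w3 := w3)
        (fun F hF1 c c' i i' a b hc hc' h1 h2 => hS w3 F hF1 c c' i i' a b hc hc' h1 (hb3 _ _) h2)
        (not_lt.1 hb1) (N := N1 + (N2 + N3)) (by omega) (by omega) (by omega) F hF1 c c' hc hc'
      rw [hE1, hE2]
      linarith
    · rw [if_neg hb1, if_neg hb3]
      linarith
  have h1 : EW μ N1 (fun v => EW μ (N2 + N3) (fun w =>
      |PW n k (v ++ w) F (cn c) - PW n k (v ++ w) F (cn c')|)) ≤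
      EW μ N1 (fun w1 => 2 * (if 2 / Real.sqrt n < fw ((k : ℝ) / n) w1 then 1 else 0) +
        1 * (EW μ N2 (fun w2 => (E1 + E2 * ∑ i, ∑ i', QW ((k : ℝ) / n) w2 off i i')) +
          2 * EW μ N3 (fun w => if ∀ x y, reach w x y then 0 else 1))) := by
    refine EW_mono hμ.1 _ _ _ fun w1 hw1 => ?_
    rw [EW_app]
    have h2 : EW μ N2 (fun w2 => EW μ N3 (fun w3 =>
        |PW n k (w1 ++ (w2 ++ w3)) F (cn c) - PW n k (w1 ++ (w2 ++ w3)) F (cn c')|)) ≤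
        EW μ N2 (fun w2 => 1 * (E1 + E2 * ∑ i, ∑ i', QW ((k : ℝ) / n) w2 off i i') +
          (2 * (if 2 / Real.sqrt n < fw ((k : ℝ) / n) w1 then 1 else 0) +
            2 * EW μ N3 (fun w => if ∀ x y, reach w x y then 0 else 1)) * 1) := by
      refine EW_mono hμ.1 _ _ _ fun w2 hw2 => ?_
      have h3 : EW μ N3 (fun w3 =>
          |PW n k (w1 ++ (w2 ++ w3)) F (cn c) - PW n k (w1 ++ (w2 ++ w3)) F (cn c')|) ≤
          EW μ N3 (fun w3 => 2 * (if ∀ x y, reach w3 x y then 0 else 1) +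
            (2 * (if 2 / Real.sqrt n < fw ((k : ℝ) / n) w1 then 1 else 0) +
              (E1 + E2 * ∑ i, ∑ i', QW ((k : ℝ) / n) w2 off i i')) * 1) := by
        refine EW_mono hμ.1 _ _ _ fun w3 hw3 => ?_
        have := step w1 w2 w3 hw1 hw2 hw3
        linarith
      rw [EW_lin, EW_const hμ] at h3
      linarith
    refine h2.trans (le_of_eq ?_)
    rw [EW_lin, EW_const hμ]
    ring
  refine h1.trans (le_of_eq ?_)
  rw [EW_lin, EW_const hμ]
  have h4 : EW μ N2 (fun w2 => (E1 + E2 * ∑ i, ∑ i', QW ((k : ℝ) / n) w2 (off (d := d)) i i')) =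
      E1 + E2 * ∑ i, ∑ i', EW μ N2 (fun w => QW ((k : ℝ) / n) w off i i') := by
    rw [EW_add, EW_const hμ, EW_smul, EW_sum]
    congr 2
    refine Finset.sum_congr rfl fun i _ => ?_
    rw [EW_sum]
  rw [h4]
  ring

end Pool.Agent.L7h38.UC
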